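import Pool.Agent.KSup.Par

/-!
# Symmetric sums with many factors in a subspace
-/

set_option autoImplicit false

noncomputable section

namespace Pool.Agent.KSup

open Pool.Agent.ZCyc Pool.Agent.Dess Pool.Agent.TInc Pool.Agent.GT
open scoped Classical

section

variable {T : Type}

private theorem extS_apply {n : ℕ} (z : Fin n → (T →₀ ℚ)) (x : Fin n → T) :
    CUB.ext z x = ∏ j, z j (x j) := by
  unfold CUB.ext
  rw [Finsupp.finsetSum_apply]
  by_cases hx : x ∈ Fintype.piFinset fun j => (z j).support
  · rw [Finset.sum_eq_single x]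
    · rw [Finsupp.single_eq_same]
    · intro y _ hy
      exact Finsupp.single_eq_of_ne (Ne.symm hy)
    · intro h
      exact absurd hx h
  · rw [Finset.sum_eq_zero]
    · rw [Fintype.mem_piFinset] at hx
      push Not at hx
      obtain ⟨j, hj⟩ := hx
      exact (Finset.prod_eq_zero (Finset.mem_univ j) (by simpa using hj)).symm
    · intro y hy
      apply Finsupp.single_eq_of_ne
      rintro rfl
      exact hx hy

private theorem extS_perm {n : ℕ} (z : Fin n → (T →₀ ℚ)) (τ : Equiv.Perm (Fin n)) :
    Finsupp.mapDomain (fun x j => x (τ j)) (CUB.ext z) = CUB.ext fun j => z (τ j) := by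
  ext y
  have hinj : Function.Injective (fun (x : Fin n → T) (j : Fin n) => x (τ j)) := by
    intro x x' h
    funext j
    have := congrFun h (τ.symm j)
    simpa using this
  have hy : y = (fun (x : Fin n → T) (j : Fin n) => x (τ j)) (fun j => y (τ.symm j)) := by
    funext j
    simp
  have h := Finsupp.mapDomain_apply hinj (CUB.ext z) (fun j => y (τ.symm j))
  rw [show (fun j => (fun j => y (τ.symm j)) (τ j)) = y from hy.symm] at h
  rw [h, extS_apply, extS_apply, ← Equiv.prod_comp τ]
  simp

private theorem extS_append {m M : ℕ} (u : Fin m → (T →₀ ℚ)) (c : Fin M → T) :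
    Finsupp.mapDomain (fun x => Fin.append x c) (CUB.ext u) =
      CUB.ext (Fin.append u fun j => Finsupp.single (c j) (1 : ℚ)) := by
  ext y
  have hinj : Function.Injective (fun (x : Fin m → T) => Fin.append x c) := by
    intro x x' h
    funext j
    have := congrFun h (Fin.castAdd M j)
    simpa using this
  rw [extS_apply, Fin.prod_univ_add]
  simp only [Fin.append_left, Fin.append_right]
  by_cases hc : (fun j => y (Fin.natAdd m j)) = c
  · have hy : y = (fun (x : Fin m → T) => Fin.append x c) (fun j => y (Fin.castAdd M j)) := by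
      funext i
      refine Fin.addCases (fun i => ?_) (fun i => ?_) i
      · simp
      · simp [← hc]
    have h := Finsupp.mapDomain_apply hinj (CUB.ext u) (fun j => y (Fin.castAdd M j))
    rw [show Fin.append (fun j => y (Fin.castAdd M j)) c = y from hy.symm] at h
    rw [h, extS_apply]
    have h1 : ∀ j, (Finsupp.single (c j) (1 : ℚ)) (y (Fin.natAdd m j)) = 1 := by
      intro j
      rw [← hc]
      simp
    simp [h1]
  · rw [Finsupp.mapDomain_of_notMem_range]
    · have : ∃ j, y (Fin.natAdd m j) ≠ c j := by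
        by_contra h
        push Not at h
        exact hc (funext h)
      obtain ⟨j, hj⟩ := this
      have h0 : (∏ j, (Finsupp.single (c j) (1 : ℚ)) (y (Fin.natAdd m j))) = 0 :=
        Finset.prod_eq_zero (Finset.mem_univ j) (Finsupp.single_eq_of_ne hj)
      rw [h0, mul_zero]
    · rintro ⟨x, hx⟩
      apply hc
      funext j
      rw [← hx]
      simp

private theorem sum_points {R : ∀ N : ℕ, Submodule ℚ ((Fin N → T) →₀ ℚ)}
    {R₁ : Submodule ℚ (T →₀ ℚ)} (S : CUB.RSys R R₁) {m M : ℕ} (u : Fin m → (T →₀ ℚ))
    (hu : ∑ ρ : Equiv.Perm (Fin m), CUB.ext (fun j => u (ρ j)) ∈ R m) (c : Fin M → T) :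
    ∑ τ : Equiv.Perm (Fin (m + M)), CUB.ext (fun j =>
      (Fin.append u fun j => Finsupp.single (c j) (1 : ℚ) : Fin (m + M) → (T →₀ ℚ)) (τ j)) ∈
      R (m + M) := by
  set w : Fin (m + M) → (T →₀ ℚ) := Fin.append u fun j => Finsupp.single (c j) (1 : ℚ) with hw
  -- the embedding of `S_m`
  set e : Equiv.Perm (Fin m) → Equiv.Perm (Fin (m + M)) := fun ρ =>
    (finSumFinEquiv.symm.trans ((Equiv.sumCongr ρ (Equiv.refl (Fin M))).trans finSumFinEquiv))
    with he
  have hwe : ∀ ρ, (fun j => w (e ρ j)) =
      Fin.append (fun j => u (ρ j)) fun j => Finsupp.single (c j) (1 : ℚ) := by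
    intro ρ
    funext j
    refine Fin.addCases (fun i => ?_) (fun i => ?_) j
    · simp [hw, he]
    · simp [hw, he]
  -- the sum over `S_m`
  have hin : ∑ ρ : Equiv.Perm (Fin m), CUB.ext (fun j => w (e ρ j)) ∈ R (m + M) := by
    have h1 : ∑ ρ : Equiv.Perm (Fin m), CUB.ext (fun j => w (e ρ j)) =
        Finsupp.mapDomain (fun x => Fin.append x c)
          (∑ ρ : Equiv.Perm (Fin m), CUB.ext (fun j => u (ρ j))) := by
      rw [Finsupp.mapDomain_finsetSum]
      exact Finset.sum_congr rfl fun ρ _ => by rw [hwe ρ, ← extS_append]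
    rw [h1]
    exact S.append hu M c
  -- the sum over `S_(m+M)` is a multiple of the sum over the pairs
  have hpair : ∀ τ : Equiv.Perm (Fin (m + M)),
      ∑ ρ : Equiv.Perm (Fin m), CUB.ext (fun j => w ((e ρ * τ) j)) ∈ R (m + M) := by
    intro τ
    have h3 : ∑ ρ : Equiv.Perm (Fin m), CUB.ext (fun j => w ((e ρ * τ) j)) =
        Finsupp.mapDomain (fun x j => x (τ j))
        (∑ ρ : Equiv.Perm (Fin m), CUB.ext (fun j => w (e ρ j))) := by
      rw [Finsupp.mapDomain_finsetSum]
      refine Finset.sum_congr rfl fun ρ _ => ?_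
      rw [extS_perm]
      rfl
    rw [h3]
    exact S.perm hin τ
  have hsum : (Fintype.card (Equiv.Perm (Fin m)) : ℚ) •
      ∑ τ : Equiv.Perm (Fin (m + M)), CUB.ext (fun j => w (τ j)) ∈ R (m + M) := by
    have h6 : (Fintype.card (Equiv.Perm (Fin m)) : ℚ) •
        ∑ τ : Equiv.Perm (Fin (m + M)), CUB.ext (fun j => w (τ j)) =
        ∑ τ : Equiv.Perm (Fin (m + M)), ∑ ρ : Equiv.Perm (Fin m),
          CUB.ext (fun j => w ((e ρ * τ) j)) := by
      rw [Finset.sum_comm]
      have h7 : ∀ ρ : Equiv.Perm (Fin m), ∑ τ : Equiv.Perm (Fin (m + M)),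
          CUB.ext (fun j => w ((e ρ * τ) j)) =
            ∑ τ : Equiv.Perm (Fin (m + M)), CUB.ext (fun j => w (τ j)) := fun ρ =>
        Equiv.sum_comp (Equiv.mulLeft (e ρ)) fun τ : Equiv.Perm (Fin (m + M)) =>
          CUB.ext (fun j => w (τ j))
      rw [Finset.sum_congr rfl fun ρ _ => h7 ρ, Finset.sum_const, Finset.card_univ,
        Nat.cast_smul_eq_nsmul]
    rw [h6]
    exact Submodule.sum_mem _ fun τ _ => hpair τ
  have hne : (Fintype.card (Equiv.Perm (Fin m)) : ℚ) ≠ 0 := by
    exact_mod_cast Fintype.card_ne_zero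
  exact ((R (m + M)).smul_mem_iff hne).1 hsum

end

variable {k : Type} [Field k] [IsAlgClosed k] [CharZero k] {m : ℕ}
  {X : Set (MvPolynomial (Fin (m + 1)) k)}

omit [IsAlgClosed k] [CharZero k] in
/-- the group of zero-cycles is generated by points -/
theorem span_points (c : CH X Unit) :
    c ∈ Submodule.span ℚ (Set.range fun p : Pt X k => cl1 X (Finsupp.single p 1)) := by
  obtain ⟨z, rfl⟩ := cl1_surj c
  induction z using Finsupp.induction_linear with
  | zero => rw [map_zero]; exact Submodule.zero_mem _
  | add f g hf hg => rw [map_add]; exact Submodule.add_mem _ hf hg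
  | single p r =>
    have h : (Finsupp.single p r : Pt X k →₀ ℚ) = r • Finsupp.single p 1 := by simp
    rw [h, map_smul]
    exact Submodule.smul_mem _ _ (Submodule.subset_span ⟨p, rfl⟩)

/-- if the symmetric sums of products of `N` elements are zero -/
theorem oddP_all (hX : Hom X) {S : Submodule ℚ (CH X Unit)} {N : ℕ}
    (h : ∀ w : Fin N → CH X Unit, (∀ j, w j ∈ S) → Sym (Ext hX N) w = 0) : OddP hX S := by
  refine ⟨N, fun n hn w hw => ?_⟩
  obtain ⟨M, rfl⟩ := Nat.exists_eq_add_of_le hn
  revert w
  suffices H : ∀ w : Fin (N + M) → CH X Unit,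
      (∀ j : Fin (N + M), N ≤ (j : ℕ) →
        w j ∈ Set.range fun p : Pt X k => cl1 X (Finsupp.single p 1)) →
      (∀ j : Fin (N + M), (j : ℕ) < N → w j ∈ S) → Sym (Ext hX (N + M)) w = 0 by
    intro w hw
    -- the last factors are points by linearity
    have key : ∀ T : Finset (Fin (N + M)), ∀ w : Fin (N + M) → CH X Unit,
        (∀ j : Fin (N + M), (j : ℕ) < N → w j ∈ S) → (∀ j ∈ T, N ≤ (j : ℕ)) →
        (∀ j : Fin (N + M), N ≤ (j : ℕ) → j ∉ T →
          w j ∈ Set.range fun p : Pt X k => cl1 X (Finsupp.single p 1)) →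
        Sym (Ext hX (N + M)) w = 0 := by
      intro T
      induction T using Finset.induction_on with
      | empty => exact fun w h1 _ h3 => H w (fun j hj => h3 j hj (Finset.notMem_empty j)) h1
      | insert a T ha ih =>
        intro w h1 h2 h3
        have haN : N ≤ (a : ℕ) := h2 a (Finset.mem_insert_self _ _)
        have h4 : ∀ u ∈ Submodule.span ℚ (Set.range fun p : Pt X k =>
            cl1 X (Finsupp.single p 1)), Sym (Ext hX (N + M)) (Function.update w a u) = 0 := by
          intro u hu
          induction hu using Submodule.span_induction with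
          | mem u hu =>
            refine ih _ (fun j hj => ?_) (fun j hj => h2 j (Finset.mem_insert_of_mem hj))
              fun j hjN hj => ?_
            · have hja : j ≠ a := fun h => by
                rw [h] at hj
                omega
              rw [Function.update_of_ne hja]
              exact h1 j hj
            · by_cases hja : j = a
              · rw [hja, Function.update_self]
                exact hu
              · rw [Function.update_of_ne hja]
                exact h3 j hjN fun h => (Finset.mem_insert.1 h).elim hja hj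
          | zero => exact (Sym (Ext hX (N + M))).map_update_zero _ _
          | add u u' _ _ hu hu' => rw [MultilinearMap.map_update_add, hu, hu', add_zero]
          | smul a' u _ hu => rw [MultilinearMap.map_update_smul, hu, smul_zero]
        have h5 := h4 _ (span_points (w a))
        rwa [Function.update_eq_self] at h5
    have hU : ∃ U : Finset (Fin (N + M)), ∀ j, j ∈ U ↔ N ≤ (j : ℕ) :=
      ⟨Finset.univ.filter fun j : Fin (N + M) => N ≤ (j : ℕ), fun j => by simp⟩
    obtain ⟨U, hU⟩ := hU
    exact key U w hw (fun j hj => (hU j).1 hj) fun j hj hj' => absurd ((hU j).2 hj) hj'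
  intro w hp hw
  choose u hu using fun i : Fin N => cl1_surj (w (Fin.castAdd M i))
  have h4 : ∀ j : Fin M, ∃ c : Pt X k, cl1 X (Finsupp.single c 1) = w (Fin.natAdd N j) :=
    fun j => hp _ (by simp)
  choose c hc using h4
  set z : Fin (N + M) → (Pt X k →₀ ℚ) := Fin.append u fun j => Finsupp.single (c j) (1 : ℚ)
    with hz
  have h5 : w = fun j => cl1 X (z j) := by
    funext j
    refine Fin.addCases (fun i => ?_) (fun i => ?_) j
    · rw [hz, Fin.append_left]
      exact (hu i).symm
    · rw [hz, Fin.append_right]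
      exact (hc i).symm
  have h6 : (∑ τ : Equiv.Perm (Fin (N + M)), CUB.ext (fun j => z (τ j))) ∈ Rat X (Fin (N + M)) := by
    refine sum_points (rsys hX) u ?_ c
    rw [← Submodule.Quotient.mk_eq_zero]
    exact (cl_sym hX u).trans (h _ fun j => by
      rw [hu]
      exact hw _ (by simp))
  rw [h5]
  exact (cl_sym hX z).symm.trans ((Submodule.Quotient.mk_eq_zero _).2 h6)

end Pool.Agent.KSup
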