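import Pool.Agent.KSup.Even
import Pool.Agent.KSup.Odd2

/-!
# Kimura's finiteness for varieties which are dominated by products

If `CH₀(Y)` is generated by the images of correspondences from finitely many products of varieties
with Kimura's finiteness property then `Y` has this property.
-/

set_option autoImplicit false

noncomputable section

namespace Pool.Agent.KSup

open Pool.Agent.ZCyc Pool.Agent.Dess Pool.Agent.TInc Pool.Agent.GT Pool.Agent.KAll
open Pool.Agent.VFP (Om tt)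
open scoped Classical LinearAlgebra.Projectivization

variable {k : Type} [Field k] [IsAlgClosed k] [CharZero k] {m n : ℕ}
  {X : Fin m → Var k} {Y : Set (MvPolynomial (Fin (n + 1)) k)}

/-- linear maps and exterior products -/
theorem lc_ext {V W T : Type} [AddCommGroup V] [Module ℚ V] [AddCommGroup W] [Module ℚ W] {N : ℕ}
    (E : MultilinearMap ℚ (fun _ : Fin N => V) W) (g : T → V) (z : Fin N → (T →₀ ℚ)) :
    Finsupp.linearCombination ℚ (fun p : Fin N → T => E fun j => g (p j)) (ext z) =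
      E fun j => Finsupp.linearCombination ℚ g (z j) := by
  have h1 : (fun j => Finsupp.linearCombination ℚ g (z j)) =
      fun j => ∑ q ∈ (z j).support, z j q • g q := by
    funext j
    rw [Finsupp.linearCombination_apply]
    rfl
  rw [h1, MultilinearMap.map_sum_finset]
  unfold ext
  rw [map_sum]
  refine Finset.sum_congr rfl fun x _ => ?_
  rw [Finsupp.linearCombination_single, E.map_smul_univ]

/-- the map on the classes -/
def clΦ (Φ : (∀ a, (X a).Pts k) → (GT.Pt Y k →₀ ℚ)) :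
    ((∀ a, (X a).Pts k) →₀ ℚ) →ₗ[ℚ] CH Y Unit :=
  Finsupp.linearCombination ℚ fun p => cl1 Y (Φ p)

omit [IsAlgClosed k] [CharZero k] in
theorem clΦ_eq (Φ : (∀ a, (X a).Pts k) → (GT.Pt Y k →₀ ℚ)) (z : (∀ a, (X a).Pts k) →₀ ℚ) :
    clΦ Φ z = cl1 Y (Finsupp.linearCombination ℚ Φ z) := by
  unfold clΦ
  rw [Finsupp.linearCombination_apply, Finsupp.linearCombination_apply, map_finsuppSum]
  refine Finsupp.sum_congr fun p _ => ?_
  rw [map_smul]

theorem even_image (hY : Hom Y) {Φ : (∀ a, (X a).Pts k) → (GT.Pt Y k →₀ ℚ)}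
    (hΦ : IsCor X Y Φ) {A : Submodule ℚ ((∀ a, (X a).Pts k) →₀ ℚ)} {N : ℕ}
    (h : ∀ z : Fin N → ((∀ a, (X a).Pts k) →₀ ℚ), (∀ j, z j ∈ A) →
      ∑ τ : Equiv.Perm (Fin N), ((Equiv.Perm.sign τ : ℤˣ) : ℤ) • GT.ext (fun j => z (τ j)) ∈
        KAll.Rat X N) : EvenP hY (A.map (clΦ Φ)) := by
  refine evenP_all hY (N := N) fun w hw => ?_
  choose z hz hzw using hw
  have h1 := IsCor.push hY hΦ (h z hz)
  rw [map_sum] at h1
  rw [Alt_apply, ← h1]
  refine Finset.sum_congr rfl fun τ _ => ?_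
  rw [map_zsmul, lc_ext (Ext hY N) (fun p => cl1 Y (Φ p))]
  congr 2
  funext j
  exact (hzw (τ j)).symm

theorem odd_image (hY : Hom Y) {Φ : (∀ a, (X a).Pts k) → (GT.Pt Y k →₀ ℚ)}
    (hΦ : IsCor X Y Φ) {B : Submodule ℚ ((∀ a, (X a).Pts k) →₀ ℚ)} {N : ℕ}
    (h : ∀ z : Fin N → ((∀ a, (X a).Pts k) →₀ ℚ), (∀ j, z j ∈ B) →
      ∑ τ : Equiv.Perm (Fin N), GT.ext (fun j => z (τ j)) ∈ KAll.Rat X N) :
    OddP hY (B.map (clΦ Φ)) := by
  refine oddP_all hY (N := N) fun w hw => ?_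
  choose z hz hzw using hw
  have h1 := IsCor.push hY hΦ (h z hz)
  rw [map_sum] at h1
  rw [Sym_apply, ← h1]
  refine Finset.sum_congr rfl fun τ _ => ?_
  rw [lc_ext (Ext hY N) (fun p => cl1 Y (Φ p))]
  congr 1
  funext j
  exact (hzw (τ j)).symm

theorem evenP_iSup (hY : Hom Y) {r : ℕ} (S : Fin r → Submodule ℚ (CH Y Unit))
    (h : ∀ s, EvenP hY (S s)) : EvenP hY (⨆ s, S s) := by
  have key : ∀ t : Finset (Fin r), EvenP hY (t.sup S) := by
    intro t
    induction t using Finset.induction_on with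
    | empty => exact evenP_bot hY
    | insert a t _ ih =>
      rw [Finset.sup_insert]
      exact (h a).sup ih
  have h1 := key Finset.univ
  rwa [Finset.sup_univ_eq_iSup] at h1

theorem oddP_iSup (hY : Hom Y) {r : ℕ} (S : Fin r → Submodule ℚ (CH Y Unit))
    (h : ∀ s, OddP hY (S s)) : OddP hY (⨆ s, S s) := by
  have key : ∀ t : Finset (Fin r), OddP hY (t.sup S) := by
    intro t
    induction t using Finset.induction_on with
    | empty => exact oddP_bot hY
    | insert a t _ ih =>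
      rw [Finset.sup_insert]
      exact (h a).sup ih
  have h1 := key Finset.univ
  rwa [Finset.sup_univ_eq_iSup] at h1

/-- **Varieties which are dominated by products.** -/
theorem dominated (hY : Hom Y) {r : ℕ} {m : Fin r → ℕ} (X : ∀ s, Fin (m s) → Var k)
    (A B : ∀ s, Submodule ℚ ((∀ a, (X s a).Pts k) →₀ ℚ))
    (hK : ∀ s, Kim (fun N => KAll.Rat (X s) N) (A s) (B s))
    (Φ : ∀ s, (∀ a, (X s a).Pts k) → (GT.Pt Y k →₀ ℚ)) (hΦ : ∀ s, IsCor (X s) Y (Φ s))
    (hgen : (⨆ s, Submodule.span ℚ (Set.range (Φ s))) ⊔ RatZ Y = ⊤) :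
    Kim (fun N => GT.Rat Y (Fin N))
      ((⨆ s, (A s).map (Finsupp.linearCombination ℚ (Φ s))) ⊔ RatZ Y)
      (⨆ s, (B s).map (Finsupp.linearCombination ℚ (Φ s))) := by
  have hS : EvenP hY (⨆ s, (A s).map (clΦ (Φ s))) := evenP_iSup hY _ fun s => by
    obtain ⟨-, N, h⟩ := hK s
    exact even_image hY (hΦ s) (h N le_rfl).1
  have hT : OddP hY (⨆ s, (B s).map (clΦ (Φ s))) := oddP_iSup hY _ fun s => by
    obtain ⟨-, N, h⟩ := hK s
    exact odd_image hY (hΦ s) (h N le_rfl).2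
  have hA : (⨆ s, (A s).map (Finsupp.linearCombination ℚ (Φ s))) ⊔ RatZ Y ≤
      (⨆ s, (A s).map (clΦ (Φ s))).comap (cl1 Y) := by
    refine sup_le (iSup_le fun s => ?_) fun z hz => ?_
    · rintro _ ⟨z, hz, rfl⟩
      rw [Submodule.mem_comap, ← clΦ_eq]
      exact Submodule.mem_iSup_of_mem s ⟨z, hz, rfl⟩
    · rw [Submodule.mem_comap, mem_ratZ.1 hz]
      exact Submodule.zero_mem _
  have hB : (⨆ s, (B s).map (Finsupp.linearCombination ℚ (Φ s))) ≤
      (⨆ s, (B s).map (clΦ (Φ s))).comap (cl1 Y) := by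
    refine iSup_le fun s => ?_
    rintro _ ⟨z, hz, rfl⟩
    rw [Submodule.mem_comap, ← clΦ_eq]
    exact Submodule.mem_iSup_of_mem s ⟨z, hz, rfl⟩
  have htop : ((⨆ s, (A s).map (Finsupp.linearCombination ℚ (Φ s))) ⊔ RatZ Y) ⊔
      (⨆ s, (B s).map (Finsupp.linearCombination ℚ (Φ s))) = ⊤ := by
    rw [eq_top_iff, ← hgen]
    refine sup_le (iSup_le fun s => ?_) (le_sup_of_le_left le_sup_right)
    rw [Submodule.span_le]
    rintro _ ⟨p, rfl⟩
    have h1 : Finsupp.single p (1 : ℚ) ∈ A s ⊔ B s := by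
      rw [(hK s).1]
      trivial
    obtain ⟨a, ha, b, hb, hab⟩ := Submodule.mem_sup.1 h1
    have h2 : Φ s p = Finsupp.linearCombination ℚ (Φ s) a +
        Finsupp.linearCombination ℚ (Φ s) b := by
      rw [← map_add, hab, Finsupp.linearCombination_single, one_smul]
    rw [SetLike.mem_coe, h2]
    refine Submodule.add_mem _ ?_ ?_
    · exact Submodule.mem_sup_left (Submodule.mem_sup_left
        (Submodule.mem_iSup_of_mem s ⟨a, ha, rfl⟩))
    · exact Submodule.mem_sup_right (Submodule.mem_iSup_of_mem s ⟨b, hb, rfl⟩)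
  have hST : (⨆ s, (A s).map (clΦ (Φ s))) ⊔ (⨆ s, (B s).map (clΦ (Φ s))) = ⊤ := by
    rw [eq_top_iff]
    rintro c -
    obtain ⟨z, rfl⟩ := cl1_surj c
    have h1 : z ∈ ((⨆ s, (A s).map (Finsupp.linearCombination ℚ (Φ s))) ⊔ RatZ Y) ⊔
        (⨆ s, (B s).map (Finsupp.linearCombination ℚ (Φ s))) := by
      rw [htop]
      trivial
    obtain ⟨a, ha, b, hb, rfl⟩ := Submodule.mem_sup.1 h1
    rw [map_add]
    exact Submodule.add_mem _ (Submodule.mem_sup_left (hA ha)) (Submodule.mem_sup_right (hB hb))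
  obtain ⟨-, N, h⟩ := kim_of hY hS hT hST
  exact ⟨htop, N, fun n hn => ⟨fun z hz => (h n hn).1 z fun j => hA (hz j),
    fun z hz => (h n hn).2 z fun j => hB (hz j)⟩⟩

/-- **Products, and everything which they dominate.** -/
theorem roof {r : ℕ} {m : Fin r → ℕ} (X : ∀ s, Fin (m s) → Var k)
    (hX : ∀ s a, (X s a).Adm) :
    ∃ A B : ∀ s, Submodule ℚ ((∀ a, (X s a).Pts k) →₀ ℚ),
      (∀ s, Kim (fun N => KAll.Rat (X s) N) (A s) (B s)) ∧
      (∀ s, (∀ a, (X s a).Evn) → B s = ⊥) ∧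
      ∀ (n : ℕ) (Y : Set (MvPolynomial (Fin (n + 1)) k))
        (Φ : ∀ s, (∀ a, (X s a).Pts k) → (GT.Pt Y k →₀ ℚ)), GT.Hom Y →
        (∀ s, IsCor (X s) Y (Φ s)) →
        (⨆ s, Submodule.span ℚ (Set.range (Φ s))) ⊔ RatZ Y = ⊤ →
        Kim (fun N => GT.Rat Y (Fin N))
          ((⨆ s, (A s).map (Finsupp.linearCombination ℚ (Φ s))) ⊔ RatZ Y)
          (⨆ s, (B s).map (Finsupp.linearCombination ℚ (Φ s))) := by
  choose A B h h' using fun s => final2 (X s) (hX s)
  exact ⟨A, B, h, h', fun n Y Φ hY hΦ hgen => dominated hY X A B h Φ hΦ hgen⟩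

end Pool.Agent.KSup
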