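import Pool.Agent.KSup.Main
import Pool.Agent.KAll.Mor

/-!
# Kimura's finiteness for the zero-cycles on products
-/

set_option autoImplicit false

noncomputable section

namespace Pool.Agent.KSup

open Pool.Agent.ZCyc Pool.Agent.Dess Pool.Agent.KAll
open scoped Classical

variable {k : Type} [Field k] {m : ℕ}

/-- the zero-cycles on the powers of one variety which are rationally equivalent to zero -/
def R1 (X : Var k) (N : ℕ) : Submodule ℚ ((Fin N → X.Pts k) →₀ ℚ) :=
  Submodule.span ℚ {z | ∃ (K : Type) (_ : Field K) (_ : Algebra k K) (_ : IsCurve k K)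
    (x : Fin N → X.Pts K) (y : Place k K → Fin N → X.Pts k) (f : K)
    (D : Place k K →₀ ℤ), f ≠ 0 ∧ (∀ v, HasOrd v f (D v)) ∧
    (∀ v i, X.IsVal v (x i) (y v i)) ∧
    z = D.sum fun v c => Finsupp.single (y v) (c : ℚ)}

/-- points over `k` are points over `K` -/
def HasBase (X : Var k) : Prop :=
  ∀ (K : Type) [Field K] [Algebra k K], IsCurve k K → ∀ y : X.Pts k, ∃ x : X.Pts K,
    ∀ v : Place k K, X.IsVal v x y

theorem ins_mem {X : Fin m → Var k} (hB : ∀ a, HasBase (X a)) {N n : ℕ} (g : Fin n ↪ Fin N)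
    (i : Fin m) (x : Fin N → ∀ a, (X a).Pts k) {z : (Fin n → (X i).Pts k) →₀ ℚ}
    (hz : z ∈ R1 (X i) n) : Finsupp.lmapDomain ℚ ℚ (ins g i x) z ∈ Rat X N := by
  have h1 : R1 (X i) n ≤ (Rat X N).comap (Finsupp.lmapDomain ℚ ℚ (ins g i x)) := by
    refine Submodule.span_le.2 ?_
    rintro _ ⟨K, i1, i2, i3, x₁, y₁, f, D, hf, hD, hval, rfl⟩
    choose xb hxb using fun b a => hB a K i3 (x b a)
    change Finsupp.lmapDomain ℚ ℚ _ _ ∈ Rat X N
    rw [map_finsuppSum]
    refine Submodule.subset_span ⟨K, i1, i2, i3, ins (P := fun a => (X a).Pts K) g i xb x₁,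
      fun v => ins g i x (y₁ v), f, D, hf, hD, fun v b a => ?_, ?_⟩
    · change (X a).IsVal v (ins (P := fun a => (X a).Pts K) g i xb x₁ b a)
        (ins g i x (y₁ v) b a)
      unfold ins
      by_cases ha : a = i
      · subst ha
        rw [Function.update_self, Function.update_self]
        by_cases hb : ∃ s, g s = b
        · obtain ⟨s, rfl⟩ := hb
          rw [g.injective.extend_apply, g.injective.extend_apply]
          exact hval v s
        · rw [Function.extend_apply' _ _ _ hb, Function.extend_apply' _ _ _ hb]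
          exact hxb b a v
      · rw [Function.update_of_ne ha, Function.update_of_ne ha]
        exact hxb b a v
    · exact Finsupp.sum_congr fun v _ => by
        rw [Finsupp.lmapDomain_apply, Finsupp.mapDomain_single]
  exact h1 hz

theorem perm_mem {X : Fin m → Var k} {N : ℕ} (π : Equiv.Perm (Fin N))
    {z : (Fin N → ∀ a, (X a).Pts k) →₀ ℚ} (hz : z ∈ Rat X N) :
    Finsupp.lmapDomain ℚ ℚ (fun (x : Fin N → ∀ a, (X a).Pts k) b => x (π b)) z ∈ Rat X N := by
  have h1 : Rat X N ≤ (Rat X N).comap (Finsupp.lmapDomain ℚ ℚ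
      (fun (x : Fin N → ∀ a, (X a).Pts k) b => x (π b))) := by
    refine Submodule.span_le.2 ?_
    rintro _ ⟨K, i1, i2, i3, x, y, f, D, hf, hD, hval, rfl⟩
    change Finsupp.lmapDomain ℚ ℚ _ _ ∈ Rat X N
    rw [map_finsuppSum]
    refine Submodule.subset_span ⟨K, i1, i2, i3, fun b => x (π b), fun v b => y v (π b), f, D, hf,
      hD, fun v b a => hval v (π b) a, ?_⟩
    exact Finsupp.sum_congr fun v _ => by
      rw [Finsupp.lmapDomain_apply, Finsupp.mapDomain_single]
  exact h1 hz

/-- **Kimura's finiteness for the zero-cycles on products.** -/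
theorem kim_product (X : Fin m → Var k) (hB : ∀ a, HasBase (X a))
    (A B : ∀ a, Submodule ℚ ((X a).Pts k →₀ ℚ)) (h : ∀ a, Kim (R1 (X a)) (A a) (B a)) :
    ∃ A' B' : Submodule ℚ ((∀ a, (X a).Pts k) →₀ ℚ), Kim (fun N => Rat X N) A' B' ∧
      ((∀ a, B a = ⊥) → B' = ⊥) := by
  choose h1 n hn using h
  obtain ⟨N₀, A', B', h2, h3, h4, h5⟩ := product (P := fun a => (X a).Pts k) (fun N => Rat X N)
    (fun a N => R1 (X a) N) (fun N i l g x z hz => ins_mem hB g i x hz)
    (fun N π z hz => perm_mem π hz) n A B fun a => {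
      top := h1 a
      alt := fun z hz => by
        have h6 := (hn a (n a + 1) (Nat.le_succ _)).1 z hz
        have h7 : ∀ τ : Equiv.Perm (Fin (n a + 1)), ((Equiv.Perm.sign τ : ℤˣ) : ℤ) •
            GT.ext (fun j => z (τ j)) = ((Equiv.Perm.sign τ : ℤ) : ℚ) •
            GT.ext (fun j => z (τ j)) := fun τ => by
          rw [Int.cast_smul_eq_zsmul]
        rwa [Finset.sum_congr rfl fun τ _ => h7 τ] at h6
      sym := fun z hz => (hn a (n a + 1) (Nat.le_succ _)).2 z hz }
  exact ⟨A', B', ⟨h2, N₀, fun N hN => ⟨h4 N hN, h5 N hN⟩⟩, h3⟩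

end Pool.Agent.KSup
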