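import Pool.Agent.KSup.Par
import Pool.Agent.KAll.Cls
import Pool.Agent.KAll.Mor

/-!
# The even and the odd part of a variety which is covered by curves of genus one
-/

set_option autoImplicit false

noncomputable section

namespace Pool.Agent.KSup

open Pool.Agent.ZCyc Pool.Agent.Dess Pool.Agent.TInc Pool.Agent.GT
open Pool.Agent.VFP (Om tt)
open scoped Classical LinearAlgebra.Projectivization

variable {k : Type} [Field k] [IsAlgClosed k] [CharZero k] {m : ℕ}
  {X : Set (MvPolynomial (Fin (m + 1)) k)}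

/-- the symmetric sums of products with two factors from one elliptic curve are zero -/
theorem oddP_hK (hX : Hom X) {a b : k} {N : Mp k m} (hN : N.Ok a b X) :
    OddP hX (Submodule.span ℚ {c | ∃ p : (Ec a b).Point, c = hK hX hN p}) := by
  refine ⟨2, fun n hn w hw => ?_⟩
  refine multi_span (Sym (Ext hX n)) (G := {c | ∃ p : (Ec a b).Point, c = hK hX hN p})
    (Finset.univ.filter fun j : Fin n => (j : ℕ) < 2) (fun w hw => ?_) w
    fun j hj => hw j (Finset.mem_filter.1 hj).2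
  obtain ⟨p, hp⟩ : ∃ p : (Ec a b).Point, w ⟨0, by omega⟩ = hK hX hN p :=
    hw ⟨0, by omega⟩ (Finset.mem_filter.2 ⟨Finset.mem_univ _, by simp⟩)
  obtain ⟨q, hq⟩ : ∃ q : (Ec a b).Point, w ⟨1, by omega⟩ = hK hX hN q :=
    hw ⟨1, by omega⟩ (Finset.mem_filter.2 ⟨Finset.mem_univ _, by simp⟩)
  have hne : (⟨0, by omega⟩ : Fin n) ≠ ⟨1, by omega⟩ := by
    intro h
    exact absurd (Fin.mk.inj_iff.1 h) (by omega)
  generalize (⟨0, by omega⟩ : Fin n) = i₀ at hp hne
  generalize (⟨1, by omega⟩ : Fin n) = i₁ at hq hne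
  have key : ∀ π : Equiv.Perm (Fin n), Ext hX n (fun j => w (π j)) +
      Ext hX n (fun j => w ((Equiv.swap i₀ i₁ * π) j)) = 0 := by
    intro π
    have hij : π.symm i₀ ≠ π.symm i₁ := fun h => hne (π.symm.injective h)
    have h1 := hK_swap hX (fun j => w (π j)) hij hN hN p q
    have h2 : (fun j => w (π j)) = Function.update (Function.update (fun j => w (π j))
        (π.symm i₀) (hK hX hN p)) (π.symm i₁) (hK hX hN q) := by
      funext j
      by_cases hj : j = π.symm i₁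
      · subst hj
        rw [Function.update_self, Equiv.apply_symm_apply, hq]
      · rw [Function.update_of_ne hj]
        by_cases hj' : j = π.symm i₀
        · subst hj'
          rw [Function.update_self, Equiv.apply_symm_apply, hp]
        · rw [Function.update_of_ne hj']
    have h3 : (fun j => w ((Equiv.swap i₀ i₁ * π) j)) = Function.update
        (Function.update (fun j => w (π j)) (π.symm i₀) (hK hX hN q)) (π.symm i₁)
        (hK hX hN p) := by
      funext j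
      rw [Equiv.Perm.mul_apply]
      by_cases hj : j = π.symm i₁
      · subst hj
        rw [Function.update_self, Equiv.apply_symm_apply, Equiv.swap_apply_right, hp]
      · rw [Function.update_of_ne hj]
        by_cases hj' : j = π.symm i₀
        · subst hj'
          rw [Function.update_self, Equiv.apply_symm_apply, Equiv.swap_apply_left, hq]
        · rw [Function.update_of_ne hj', Equiv.swap_apply_of_ne_of_ne]
          · intro h
            exact hj' (by rw [← h, Equiv.symm_apply_apply])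
          · intro h
            exact hj (by rw [← h, Equiv.symm_apply_apply])
    have h4 : Ext hX n (fun j => w (π j)) = Ext hX n (Function.update (Function.update
        (fun j => w (π j)) (π.symm i₀) (hK hX hN p)) (π.symm i₁) (hK hX hN q)) :=
      congrArg _ h2
    rw [h3, h4]
    exact h1
  have h5 : Sym (Ext hX n) w + Sym (Ext hX n) w = 0 := by
    have h6 : Sym (Ext hX n) w =
        ∑ π : Equiv.Perm (Fin n), Ext hX n (fun j => w ((Equiv.swap i₀ i₁ * π) j)) := by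
      rw [Sym_apply]
      exact (Equiv.sum_comp (Equiv.mulLeft (Equiv.swap i₀ i₁))
        fun π : Equiv.Perm (Fin n) => Ext hX n (fun j => w (π j))).symm
    conv_lhs => enter [2]; rw [h6]
    rw [Sym_apply, ← Finset.sum_add_distrib]
    exact Finset.sum_eq_zero fun π _ => key π
  rw [← two_smul ℚ] at h5
  exact (smul_eq_zero.1 h5).resolve_left two_ne_zero

theorem evenP_bot (hX : Hom X) : EvenP hX ⊥ := (evenP_single hX 0).mono bot_le

/-- constant curve -/
theorem split_cst (hX : Hom X) {a b : k} {M : Mp (Om k) m}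
    (hM : M.Ok (algebraMap k (Om k) a) (algebraMap k (Om k) b) X) :
    ∃ S T : Submodule ℚ (CH X Unit), EvenP hX S ∧ OddP hX T ∧
      QRT.HVs hX hM ⊆ (S ⊔ T : Submodule ℚ (CH X Unit)) := by
  rcases isEmpty_or_nonempty (Place k (Om k)) with he | ⟨⟨v₀⟩⟩
  · refine ⟨⊥, ⊥, evenP_bot hX, oddP_bot hX, ?_⟩
    rintro _ ⟨v, P, rfl⟩
    exact he.elim v
  obtain ⟨N, h⟩ := isoT_all hX hM
  obtain ⟨N₀, hN₀, h1⟩ := hV_cst hX hM rfl rfl v₀
  refine ⟨Submodule.span ℚ {c | ∃ (v v' : Place k (Om k)) (p : (Ec a b).Point),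
    c = hV hX hM v (cst p) - hV hX hM v' (cst p)},
    Submodule.span ℚ {c | ∃ p : (Ec a b).Point, c = hK hX hN₀ p},
    evenP_all hX (h N le_rfl), oddP_hK hX hN₀, ?_⟩
  rintro _ ⟨v, P, rfl⟩
  obtain ⟨p, hp⟩ := QRT.hV_red hX hM v P
  have h2 : hV hX hM v₀ (cst p) = hK hX hN₀ p := by
    rw [← h1 p, castE_rfl]
  have h3 : hV hX hM v P = (hV hX hM v (cst p) - hV hX hM v₀ (cst p)) + hK hX hN₀ p := by
    rw [hp, h2]
    abel
  rw [h3]
  exact Submodule.add_mem _
    (Submodule.mem_sup_left (Submodule.subset_span ⟨v, v₀, p, rfl⟩))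
    (Submodule.mem_sup_right (Submodule.subset_span ⟨p, rfl⟩))

private theorem cls_cast (hX : Hom X) {α B α' B' : Om k} {M : Mp (Om k) m} (hM : M.Ok α B X)
    (hα : α = α') (hB : B = B') : ∃ hM' : M.Ok α' B' X, QRT.HVs hX hM' = QRT.HVs hX hM := by
  subst hα hB
  exact ⟨hM, rfl⟩

/-- The values of the limit homomorphisms. -/
theorem split_hV (hX : Hom X) {α B : Om k} {M : Mp (Om k) m} (hM : M.Ok α B X) :
    ∃ S T : Submodule ℚ (CH X Unit), EvenP hX S ∧ OddP hX T ∧
      QRT.HVs hX hM ⊆ (S ⊔ T : Submodule ℚ (CH X Unit)) := by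
  by_cases hj : ∃ a a' : k, (a ≠ 0 ∨ a' ≠ 0) ∧
      algebraMap k (Om k) a * α ^ 3 = algebraMap k (Om k) a' * B ^ 2
  swap
  · obtain ⟨N, h⟩ := QRT.famJ hX hM hj
    refine ⟨Submodule.span ℚ (QRT.HVs hX hM), ⊥, evenP_all hX (h N le_rfl), oddP_bot hX, ?_⟩
    rw [sup_bot_eq]
    exact Submodule.subset_span
  have hcst : ∀ {c : Om k}, c ≠ 0 → ∀ {α' B' : k}, α / c ^ 4 = algebraMap k (Om k) α' →
      B / c ^ 6 = algebraMap k (Om k) B' → ∃ S T : Submodule ℚ (CH X Unit), EvenP hX S ∧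
      OddP hX T ∧ QRT.HVs hX hM ⊆ (S ⊔ T : Submodule ℚ (CH X Unit)) := by
    intro c hc α' B' h1 h2
    have hM1 := ok_scl hX hM hc (one_ne_zero (α := Om k))
    obtain ⟨hM2, hM3⟩ := cls_cast hX hM1 h1 h2
    have h3 : QRT.HVs hX hM ⊆ QRT.HVs hX hM2 := by
      rw [hM3]
      rintro _ ⟨v, P, rfl⟩
      exact ⟨v, _, hV_scl hX hM v hc one_ne_zero P⟩
    obtain ⟨S, T, h4, h5, h6⟩ := split_cst hX hM2
    exact ⟨S, T, h4, h5, h3.trans h6⟩
  obtain ⟨a, a', haa, hj⟩ := hj
  by_cases hα : α = 0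
  · have hB : B ≠ 0 := by
      rintro rfl
      apply hM.disc
      rw [hα]
      ring
    obtain ⟨c, hc⟩ := IsAlgClosed.exists_pow_nat_eq B (n := 6) (by norm_num)
    have hc0 : c ≠ 0 := by
      rintro rfl
      exact hB (by rw [← hc]; ring)
    refine hcst hc0 (α' := 0) (B' := 1) ?_ ?_
    · rw [hα, zero_div, map_zero]
    · rw [hc, map_one, div_self hB]
  · obtain ⟨c, hc⟩ := IsAlgClosed.exists_pow_nat_eq α (n := 4) (by norm_num)
    have hc0 : c ≠ 0 := by
      rintro rfl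
      exact hα (by rw [← hc]; ring)
    have ha' : a' ≠ 0 := by
      rintro rfl
      rw [map_zero, zero_mul] at hj
      rcases mul_eq_zero.1 hj with h1 | h1
      · have h2 : a = 0 := (map_eq_zero_iff _ (algebraMap k (Om k)).injective).1 h1
        rcases haa with h3 | h3
        · exact h3 h2
        · exact h3 rfl
      · exact hα (pow_eq_zero_iff (by norm_num) |>.1 h1)
    obtain ⟨r, hr⟩ := IsAlgClosed.exists_pow_nat_eq (a / a') (n := 2) (by norm_num)
    have ha'' : algebraMap k (Om k) a' ≠ 0 :=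
      (map_ne_zero_iff _ (algebraMap k (Om k)).injective).2 ha'
    have h1 : (B / c ^ 6) ^ 2 = (algebraMap k (Om k) r) ^ 2 := by
      rw [← map_pow, hr, map_div₀]
      have h2 : (B / c ^ 6) ^ 2 = B ^ 2 / α ^ 3 := by
        rw [← hc]
        field_simp
      rw [h2, div_eq_div_iff (pow_ne_zero 3 hα) ha'']
      linear_combination -hj
    have h3 : α / c ^ 4 = algebraMap k (Om k) 1 := by
      rw [hc, map_one, div_self hα]
    rcases sq_eq_sq_iff_eq_or_eq_neg.1 h1 with h2 | h2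
    · exact hcst hc0 h3 h2
    · exact hcst hc0 h3 (B' := -r) (by rw [h2, map_neg])

/-- all classes -/
theorem split_top {α B : Om k} {M : Mp (Om k) m} (hF : KAll.Fam X α B M) (hX : Hom X)
    (hM : M.Ok α B X)
    {x₀ y₀ : Om k} (h₀ : y₀ ^ 2 = x₀ ^ 3 - 3 * α * x₀ + B) (hne : M.co x₀ y₀ ≠ 0)
    {U : Submodule ℚ (CH X Unit)} (hU : QRT.HVs hX hM ⊆ U)
    (hU' : ∀ (v : Place k (Om k)) (p₀ : Pt X k), KAll.IsValue X v (M.co x₀ y₀) p₀ →
      cl1 X (Finsupp.single p₀ 1) ∈ U) : U = ⊤ := by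
  rw [eq_top_iff]
  rintro c -
  obtain ⟨z, rfl⟩ := cl1_surj c
  have hp : ∀ p : Pt X k, cl1 X (Finsupp.single p 1) ∈ U := by
    intro p
    obtain ⟨v, x, y, hxy, -, hv⟩ := KAll.exists_value hF p
    obtain ⟨p₀, hp₀, P, h1⟩ := KAll.cls_point hX hM h₀ hne hxy hv
    rw [h1]
    exact U.add_mem (hU' v p₀ hp₀) (hU ⟨v, P, rfl⟩)
  rw [← Finsupp.sum_single z, map_finsuppSum]
  refine Submodule.sum_mem _ fun p _ => ?_
  have h2 : Finsupp.single p (z p) = z p • Finsupp.single p (1 : ℚ) := by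
    rw [Finsupp.smul_single, smul_eq_mul, mul_one]
  change cl1 X (Finsupp.single p (z p)) ∈ U
  rw [h2, map_smul]
  exact U.smul_mem _ (hp p)

/-- from classes to cycles -/
theorem kim_of (hX : Hom X) {S T : Submodule ℚ (CH X Unit)} (hS : EvenP hX S) (hT : OddP hX T)
    (h : S ⊔ T = ⊤) : KAll.Kim (fun N => GT.Rat X (Fin N)) (S.comap (cl1 X))
      (T.comap (cl1 X)) := by
  obtain ⟨N₁, h1⟩ := hS
  obtain ⟨N₂, h2⟩ := hT
  refine ⟨?_, max N₁ N₂, fun n hn => ⟨fun z hz => ?_, fun z hz => ?_⟩⟩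
  · rw [eq_top_iff]
    rintro z -
    have h3 : cl1 X z ∈ S ⊔ T := by
      rw [h]
      trivial
    obtain ⟨s, hs, t, ht, hst⟩ := Submodule.mem_sup.1 h3
    obtain ⟨z', rfl⟩ := cl1_surj s
    have h4 : z = z' + (z - z') := by abel
    rw [h4]
    refine Submodule.add_mem _ (Submodule.mem_sup_left hs) (Submodule.mem_sup_right ?_)
    rw [Submodule.mem_comap, map_sub, ← hst, add_sub_cancel_left]
    exact ht
  · change _ ∈ GT.Rat X (Fin n)
    rw [← Submodule.Quotient.mk_eq_zero]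
    exact (cl_alt hX z).trans (h1 n ((le_max_left _ _).trans hn) _ fun j _ => hz j)
  · change _ ∈ GT.Rat X (Fin n)
    rw [← Submodule.Quotient.mk_eq_zero]
    exact (cl_sym hX z).trans (h2 n ((le_max_right _ _).trans hn) _ fun j _ => hz j)

/-- **One factor**: a variety which is covered by curves of genus one. -/
theorem fam_kim {α B : Om k} {M : Mp (Om k) m} (hF : KAll.Fam X α B M) :
    ∃ A B' : Submodule ℚ (Pt X k →₀ ℚ), KAll.Kim (fun N => GT.Rat X (Fin N)) A B' := by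
  have hX := hF.hom
  have hM := hF.ok
  rcases isEmpty_or_nonempty (Pt X k) with he | ⟨⟨p₁⟩⟩
  · refine ⟨_, _, kim_of hX (evenP_bot hX) (oddP_bot hX) ?_⟩
    rw [eq_top_iff]
    rintro c -
    obtain ⟨z, rfl⟩ := cl1_surj c
    have hz : z = 0 := Subsingleton.elim _ _
    rw [hz, map_zero]
    exact Submodule.zero_mem _
  obtain ⟨x₀, y₀, h₀, hne⟩ : ∃ x₀ y₀ : Om k, y₀ ^ 2 = x₀ ^ 3 - 3 * α * x₀ + B ∧
      M.co x₀ y₀ ≠ 0 := by
    have := infinite_points hM.disc
    obtain ⟨Q, hQ⟩ := (finite_bad (α := α) (B := B) hM.ne).exists_notMem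
    have hQ1 : M.Ns Q := by
      by_contra hc
      exact hQ hc
    rcases Q with _ | ⟨x, y, hxy⟩
    · exact hQ1.elim
    · exact ⟨x, y, eqn_iff.1 hxy.1, hQ1⟩
  obtain ⟨v₁, -⟩ := KAll.exists_value hF p₁
  obtain ⟨q₀, hq₀⟩ := KAll.value_of_pt hX hM v₁ h₀ hne
  obtain ⟨K, x', hK, -, -, hx'⟩ := exists_field hX ∅ (J := Unit) fun _ =>
    mkPt hX (M.co x₀ y₀) hne fun f hf => hM.onX f hf x₀ y₀ h₀
  have hb : ∀ (v : Place k (Om k)) (p₀ : Pt X k), KAll.IsValue X v (M.co x₀ y₀) p₀ →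
      ∃ c : Place k K, IsVal c (x' ()) p₀ := by
    intro v p₀ hp₀
    obtain ⟨c, hc⟩ := exists_below hK v K.val
    refine ⟨c, (isVal_map hc (hX := hX)).1 ?_⟩
    rw [hx']
    exact (isVal_iff hne p₀.1.rep_nonzero rfl (Projectivization.mk_rep p₀.1).symm).2 hp₀
  obtain ⟨c₁, hc₁⟩ := hb v₁ q₀ hq₀
  obtain ⟨S, T, hS, hT, hST⟩ := split_hV hX hM
  obtain ⟨N, -, hN⟩ := odd_curve hX hK (x' ())
  have hT' : OddP hX (Submodule.span ℚ (Diffs X (x' ()))) := ⟨N, hN⟩
  refine ⟨_, _, kim_of hX (hS.sup (evenP_single hX (cl1 X (Finsupp.single q₀ 1))))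
    (hT.sup hT') ?_⟩
  refine split_top hF hX hM h₀ hne (fun c hc => ?_) fun v p₀ hp₀ => ?_
  · exact (sup_le_sup le_sup_left le_sup_left : S ⊔ T ≤ _) (hST hc)
  · obtain ⟨c, hc⟩ := hb v p₀ hp₀
    have h1 : cl1 X (Finsupp.single p₀ 1) = cl1 X (Finsupp.single q₀ 1) +
        (cl1 X (Finsupp.single p₀ 1) - cl1 X (Finsupp.single q₀ 1)) := by abel
    rw [h1]
    refine Submodule.add_mem _ ?_ ?_
    · exact Submodule.mem_sup_left (Submodule.mem_sup_right
        (Submodule.mem_span_singleton_self _))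
    · exact Submodule.mem_sup_right (Submodule.mem_sup_right
        (Submodule.subset_span ⟨c, c₁, p₀, q₀, hc, hc₁, rfl⟩))

/-- **One factor without odd part.** -/
theorem cover_kim {α B : Om k} {M : Mp (Om k) m} (hc : KAll.IsCover X α B M) :
    ∃ A : Submodule ℚ (Pt X k →₀ ℚ), KAll.Kim (fun N => GT.Rat X (Fin N)) A ⊥ := by
  have hX := hc.hom
  have hM := hc.ok
  obtain ⟨v₀, h₀⟩ := hc.member
  obtain ⟨x₀, y₀, h1, hne, hsec⟩ := hc.section_
  obtain ⟨q₀, hq₀⟩ := KAll.value_of_pt hX hM v₀ h1 hne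
  obtain ⟨N, hN⟩ := QRT.ell_alt hX hM (v₀ := v₀) (KAll.hV_member hX hM h₀)
  have hS : EvenP hX (Submodule.span ℚ (QRT.HVs hX hM)) := evenP_all hX (hN N le_rfl)
  have htop : Submodule.span ℚ (QRT.HVs hX hM) ⊔
      Submodule.span ℚ {cl1 X (Finsupp.single q₀ 1)} = ⊤ := by
    refine split_top hc.toFam hX hM h1 hne (fun c hc => ?_) fun v p₀ hp₀ => ?_
    · exact Submodule.mem_sup_left (Submodule.subset_span hc)
    · rw [KAll.equivalent_iff.1 (hsec v v₀ p₀ q₀ hp₀ hq₀)]
      exact Submodule.mem_sup_right (Submodule.mem_span_singleton_self _)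
  have h2 := kim_of hX (hS.sup (evenP_single hX (cl1 X (Finsupp.single q₀ 1)))) (oddP_bot hX)
    (by rw [htop, sup_bot_eq])
  rw [htop, Submodule.comap_top] at h2
  refine ⟨⊤, top_sup_eq _, ?_⟩
  obtain ⟨-, N', h3⟩ := h2
  refine ⟨max N' 1, fun n hn => ⟨(h3 n ((le_max_left _ _).trans hn)).1, fun z hz => ?_⟩⟩
  refine (h3 n ((le_max_left _ _).trans hn)).2 z fun j => ?_
  rw [(Submodule.mem_bot ℚ).1 (hz j)]
  exact Submodule.zero_mem _

end Pool.Agent.KSup
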