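import Pool.Agent.KSup.Cls
import Pool.Agent.EFC.MoveSum

/-!
# Correspondences for zero-cycles

A correspondence `Φ` from a product of varieties to a variety `Y` attaches a zero-cycle on `Y` to
every point of the product, and is compatible with specialisation. The zero-cycles which are
rationally equivalent to zero on a power of the product are mapped to such cycles.
-/

set_option autoImplicit false

noncomputable section

namespace Pool.Agent.KAll

open Pool.Agent.ZCyc Pool.Agent.Dess
open Pool.Agent.VFP (Om tt)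
open scoped Classical LinearAlgebra.Projectivization

variable {k : Type} [Field k] {m n : ℕ}

/-- the zero-cycles which are rationally equivalent to zero on the variety with the equations `Y` -/
def RatZ (Y : Set (MvPolynomial (Fin (n + 1)) k)) : Submodule ℚ (GT.Pt Y k →₀ ℚ) :=
  (GT.Rat Y Unit).comap (Finsupp.lmapDomain ℚ ℚ fun q _ => q)

/-- `Φ` is a correspondence for zero-cycles from the product of the varieties `X a` to the variety
with the equations `Y`. It attaches a zero-cycle on `Y` with rational coefficients to every point of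
the product, such that for every curve (with the function field `K`, which is embedded in the
algebraic closure `Om k` of `k(t)` by `σ`) and every map `x` from the curve to the product there is a
zero-cycle `w` on `Y` with coordinates in `Om k` which has the following property: the value of `w`
at every place `V` of `Om k` (the cycle of the values `y q` of the points `q` of `w`) is rationally
equivalent to `Φ(x₀)`, where `x₀` is the value of `x` at the point `v` of the curve below `V`. -/
def IsCor (X : Fin m → Var k) (Y : Set (MvPolynomial (Fin (n + 1)) k))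
    (Φ : (∀ a, (X a).Pts k) → (GT.Pt Y k →₀ ℚ)) : Prop :=
  ∀ (K : Type) [Field K] [Algebra k K], IsCurve k K → ∀ (σ : K →ₐ[k] Om k)
    (x : ∀ a, (X a).Pts K), ∃ w : GT.Pt Y (Om k) →₀ ℚ,
    ∀ (V : Place k (Om k)) (v : Place k K) (x₀ : ∀ a, (X a).Pts k)
      (y : GT.Pt Y (Om k) → GT.Pt Y k), V.ring.comap (σ : K →+* Om k) = v.ring →
      (∀ a, (X a).IsVal v (x a) (x₀ a)) → (∀ q, GT.IsVal V q (y q)) →
      Finsupp.mapDomain y w - Φ x₀ ∈ RatZ Y

end Pool.Agent.KAll

namespace Pool.Agent.KSup

open Pool.Agent.ZCyc Pool.Agent.Dess Pool.Agent.TInc Pool.Agent.GT Pool.Agent.KAll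
open Pool.Agent.VFP (Om tt)
open scoped Classical LinearAlgebra.Projectivization

variable {k : Type} [Field k] [IsAlgClosed k] [CharZero k] {m n : ℕ}
  {X : Fin m → Var k} {Y : Set (MvPolynomial (Fin (n + 1)) k)}

omit [IsAlgClosed k] [CharZero k] in
theorem mem_ratZ {z : GT.Pt Y k →₀ ℚ} : z ∈ RatZ Y ↔ cl1 Y z = 0 := by
  change _ ∈ GT.Rat Y Unit ↔ Submodule.Quotient.mk _ = _
  rw [Submodule.Quotient.mk_eq_zero]

omit [IsAlgClosed k] [CharZero k] in
theorem lim1_eq [HasRes k (Om k)] (hY : Hom Y) (V : Place k (Om k))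
    (w : GT.Pt Y (Om k) →₀ ℚ) :
    lim1 hY V w = cl1 Y (Finsupp.mapDomain (pv hY V) w) := by
  change (GT.Rat Y Unit).mkQ (Finsupp.mapDomain _ (Finsupp.mapDomain _ w)) =
    (GT.Rat Y Unit).mkQ (Finsupp.mapDomain _ (Finsupp.mapDomain _ w))
  rw [← Finsupp.mapDomain_comp, ← Finsupp.mapDomain_comp]
  rfl

/-- functions on the places of a curve which are limits of one cycle -/
private theorem cor_div (hY : Hom Y) {ι : Type} [Finite ι] {K : Type} [Field K] [Algebra k K]
    (hK : IsCurve k K) (G : Place k K → CH Y ι)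
    (W : (K →ₐ[k] Om k) → ((ι → Pt Y (Om k)) →₀ ℚ))
    (hW : ∀ (σ : K →ₐ[k] Om k) (V : Place k (Om k)) (v : Place k K),
      V.ring.comap (σ : K →+* Om k) = v.ring → lim hY V (W σ) = G v)
    {f : K} (hf : f ≠ 0) (D : Place k K →₀ ℤ) (hD : ∀ v, HasOrd v f (D v)) :
    (D.sum fun v c => (c : ℚ) • G v) = 0 := by
  have hDo : ∀ v, D v = ord v f := fun v => (ord_eq hK hf (hD v)).symm
  by_cases hft : IsAlgebraic k f
  · -- constants
    obtain ⟨c, rfl⟩ := minpoly.mem_range_of_degree_eq_one k f
      (IsAlgClosed.degree_eq_one_of_irreducible k (minpoly.irreducible hft.isIntegral))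
    have h0 : D = 0 := by
      ext v
      rw [hDo, ord_const hK]
      rfl
    rw [h0, Finsupp.sum_zero_index]
  change Transcendental k f at hft
  -- the function `t / (t - 1)`
  have htt : Transcendental k (tt k) := Pool.Agent.VFP.tt_transc
  have h1 : tt k - 1 ≠ 0 := by
    intro h
    apply htt
    rw [sub_eq_zero.1 h]
    exact isAlgebraic_one
  have h0 : tt k ≠ 0 := by
    intro h
    apply htt
    rw [h]
    exact isAlgebraic_zero
  set τ : Om k := tt k / (tt k - 1) with hτ
  have hτ1 : τ - 1 = 1 / (tt k - 1) := by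
    rw [hτ]
    field_simp
    ring
  have hτ0 : τ - 1 ≠ 0 := by
    rw [hτ1]
    exact one_div_ne_zero h1
  have htτ : tt k = τ / (τ - 1) := by
    rw [hτ1, hτ]
    field_simp
  have hτt : Transcendental k τ := by
    intro h
    apply htt
    rw [htτ, div_eq_mul_inv]
    exact h.mul (h.sub isAlgebraic_one).inv
  set E := (card_emb hK hft hτt).1.toFinset with hE
  have hEm : ∀ σ, σ ∈ E ↔ σ f = τ := fun σ => by
    rw [hE, Set.Finite.mem_toFinset]
    rfl
  -- the places below
  have hlim : ∀ V : Place k (Om k), ∃ γ : (K →ₐ[k] Om k) → Place k K,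
      (∀ σ ∈ E, (γ σ).ring = V.ring.comap σ.toRingHom) ∧
      lim hY V (∑ σ ∈ E, W σ) = ∑ σ ∈ E, G (γ σ) := by
    intro V
    choose γ hγ using fun σ => exists_below hK V σ
    refine ⟨γ, fun σ _ => (hγ σ).symm, ?_⟩
    rw [map_sum]
    exact Finset.sum_congr rfl fun σ _ => hW σ V (γ σ) (hγ σ)
  have hmem : ∀ v : Place k K, f ∈ v.ring ↔ 0 ≤ D v := fun v => by
    rw [mem_iff_ord hK hf, hDo]
  -- zeros
  have hT₀ : ∀ c, c ∈ D.support.filter (fun c => 0 < D c) ↔ c.At f 0 := by
    intro c
    rw [Finset.mem_filter, Finsupp.mem_support_iff]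
    have h2 : c.At f 0 ↔ c.Vanishes f := by
      unfold Place.At
      rw [map_zero, sub_zero]
    rw [h2, vanishes_iff_ord hK hf, ← hDo]
    exact ⟨fun h => h.2, fun h => ⟨h.ne', h⟩⟩
  have hT₁ : ∀ c, c ∈ D.support.filter (fun c => D c < 0) ↔ f ∉ c.ring := by
    intro c
    rw [Finset.mem_filter, Finsupp.mem_support_iff, hmem, not_le]
    exact ⟨fun h => h.2, fun h => ⟨h.ne, h⟩⟩
  have key := bridge hY (∑ σ ∈ E, W σ) (c₀ := 0) (c₁ := 1)
    (C₀ := ∑ c ∈ D.support.filter (fun c => 0 < D c), (D c : ℚ) • G c)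
    (C₁ := ∑ c ∈ D.support.filter (fun c => D c < 0), (-D c : ℚ) • G c) ?_ ?_
  · rw [Finsupp.sum, ← Finset.sum_filter_add_sum_filter_not D.support (fun c => 0 < D c), key]
    have h2 : D.support.filter (fun c => ¬ 0 < D c) = D.support.filter (fun c => D c < 0) := by
      refine Finset.filter_congr fun c hc => ?_
      rw [Finsupp.mem_support_iff] at hc
      omega
    rw [h2, ← Finset.sum_add_distrib]
    refine Finset.sum_eq_zero fun c _ => ?_
    rw [neg_smul, neg_add_cancel]
  · intro V hV
    obtain ⟨γ, hγ, h2⟩ := hlim V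
    have h3 : V.At τ 0 := by
      have h4 : V.At (tt k - 1) (0 - 1) := hV.sub (by simpa using Place.at_const (v := V) (1 : k))
      have h5 := hV.div h4 (by norm_num)
      rwa [zero_div] at h5
    rw [h2, EFC.sum_emb hK hft hτt h3 G hEm hγ hT₀]
    refine Finset.sum_congr rfl fun c _ => ?_
    rw [map_zero, sub_zero, hDo]
  · intro V hV
    obtain ⟨γ, hγ, h2⟩ := hlim V
    have h3 : τ ∉ V.ring := by
      intro h4
      have h5 : V.Vanishes (tt k - 1) := by
        have := hV
        unfold Place.At at this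
        rwa [map_one] at this
      rw [Place.vanishes_iff_or] at h5
      rcases h5 with h5 | h5
      · exact h1 h5
      · apply h5
        rw [← one_div, ← hτ1]
        exact sub_mem h4 (one_mem _)
    rw [h2, EFC.sum_emb_pole hK hft hτt h3 G hEm hγ hT₁]
    refine Finset.sum_congr rfl fun c _ => ?_
    rw [hDo]

/-- **Push-forward of cycles which are rationally equivalent to zero.** -/
theorem IsCor.push (hY : Hom Y) {Φ : (∀ a, (X a).Pts k) → (GT.Pt Y k →₀ ℚ)} (hΦ : IsCor X Y Φ)
    {N : ℕ} {z : (Fin N → ∀ a, (X a).Pts k) →₀ ℚ} (hz : z ∈ KAll.Rat X N) :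
    Finsupp.linearCombination ℚ (fun p : Fin N → ∀ a, (X a).Pts k =>
      Ext hY N (fun j => cl1 Y (Φ (p j)))) z = 0 := by
  rw [← LinearMap.mem_ker]
  revert z
  change KAll.Rat X N ≤ _
  refine Submodule.span_le.2 ?_
  rintro _ ⟨K, i1, i2, hK, x, y, f, D, hf, hD, hval, rfl⟩
  rw [SetLike.mem_coe, LinearMap.mem_ker, map_finsuppSum]
  have : HasRes k K := hasRes_of_isCurve hK
  choose w hw using fun (σ : K →ₐ[k] Om k) (j : Fin N) => hΦ K hK σ (x j)
  have h1 := cor_div hY hK (fun v => Ext hY N (fun j => cl1 Y (Φ (y v j))))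
    (fun σ => ext fun j => w σ j) (fun σ V v hV => ?_) hf D hD
  · rw [← h1]
    refine Finsupp.sum_congr fun v _ => ?_
    rw [Finsupp.linearCombination_single]
  · rw [lim_ext]
    congr 1
    funext j
    have h2 := hw σ j V v (y v j) (pv hY V) hV (hval v j) fun q => pv_spec hY V q
    rw [mem_ratZ, map_sub, sub_eq_zero] at h2
    rw [← h2, lim1_eq]

end Pool.Agent.KSup
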