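import Pool.Agent.KSup.Fac
import Pool.Agent.KSup.Cor

/-!
# Even families

Families of curves of genus at most one such that all zero-cycles are even.
-/

set_option autoImplicit false

noncomputable section

namespace Pool.Agent.KAll

open Pool.Agent.ZCyc Pool.Agent.Dess
open Pool.Agent.VFP (Om tt)
open scoped Classical LinearAlgebra.Projectivization

variable {k : Type} [Field k] {m : ℕ}

/-- The family of elliptic curves `E : y ^ 2 = x ^ 3 - 3 * α * x + B` over `Om k` with the map `φ` to
the variety with the equations `X` is even: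

* the `j`-invariant of `E` is not constant, or some member of the family consists of rationally
  equivalent points: all values of the points `φ(x, y)` at a place `v₀` of `Om k` are rationally
  equivalent;
* some combination of multisections, of a degree different from zero, is constant modulo rational
  equivalence: there are points `(x i, y i)` of `E` and rational numbers `c i` such that for all
  places of `Om k` the cycles `∑ c i p i`, where `p i` is the value of `φ(x i, y i)`, are rationally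
  equivalent. -/
structure IsEven (X : Set (MvPolynomial (Fin (m + 1)) k)) (α B : Om k) (M : GT.Mp (Om k) m) : Prop
    extends Fam X α B M where
  member : (¬ ∃ a a' : k, (a ≠ 0 ∨ a' ≠ 0) ∧
      algebraMap k (Om k) a * α ^ 3 = algebraMap k (Om k) a' * B ^ 2) ∨
    ∃ v₀ : Place k (Om k), ∀ (x y x' y' : Om k) (p p' : GT.Pt X k),
      y ^ 2 = x ^ 3 - 3 * α * x + B → y' ^ 2 = x' ^ 3 - 3 * α * x' + B →
      IsValue X v₀ (M.co x y) p → IsValue X v₀ (M.co x' y') p' → Equivalent X p p'
  section_ : ∃ (r : ℕ) (x y : Fin r → Om k) (c : Fin r → ℚ),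
    (∀ i, y i ^ 2 = x i ^ 3 - 3 * α * x i + B ∧ M.co (x i) (y i) ≠ 0) ∧ ∑ i, c i ≠ 0 ∧
    ∀ (v v' : Place k (Om k)) (p p' : Fin r → GT.Pt X k),
      (∀ i, IsValue X v (M.co (x i) (y i)) (p i)) →
      (∀ i, IsValue X v' (M.co (x i) (y i)) (p' i)) →
      ∑ i, (Finsupp.single (p i) (c i) - Finsupp.single (p' i) (c i)) ∈ RatZ X

/-- The variety is even: it is the closure of an even family of curves of genus at most one, or it is
of one of the other kinds. -/
def Var.Evn : Var k → Prop
  | .covered X => ∃ (α B : Om k) (M : GT.Mp (Om k) _), IsEven X α B M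
  | .quartic _ => True
  | .plane _ => True
  | .lines _ => True

end Pool.Agent.KAll

namespace Pool.Agent.KSup

open Pool.Agent.ZCyc Pool.Agent.Dess Pool.Agent.TInc Pool.Agent.GT Pool.Agent.KAll
open Pool.Agent.VFP (Om tt)
open scoped Classical LinearAlgebra.Projectivization

variable {k : Type} [Field k] [IsAlgClosed k] [CharZero k] {m : ℕ}
  {X : Set (MvPolynomial (Fin (m + 1)) k)}

omit [IsAlgClosed k] [CharZero k] in
/-- the families `IsCover` are even -/
theorem isEven_of_cover {α B : Om k} {M : Mp (Om k) m} (hc : IsCover X α B M) :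
    IsEven X α B M where
  toFam := hc.toFam
  member := Or.inr hc.member
  section_ := by
    obtain ⟨x₀, y₀, h, hne, hsec⟩ := hc.section_
    refine ⟨1, fun _ => x₀, fun _ => y₀, fun _ => 1, fun _ => ⟨h, hne⟩, by simp,
      fun v v' p p' hp hp' => ?_⟩
    rw [Fin.sum_univ_one, mem_ratZ, map_sub, sub_eq_zero]
    exact equivalent_iff.1 (hsec v v' _ _ (hp 0) (hp' 0))

theorem even_hv {α B : Om k} {M : Mp (Om k) m} (hc : IsEven X α B M) :
    EvenP hc.hom (Submodule.span ℚ (QRT.HVs hc.hom hc.ok)) := by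
  by_cases hj : ∃ a a' : k, (a ≠ 0 ∨ a' ≠ 0) ∧
      algebraMap k (Om k) a * α ^ 3 = algebraMap k (Om k) a' * B ^ 2
  · obtain ⟨v₀, h₀⟩ := hc.member.resolve_left fun h => h hj
    obtain ⟨N, hN⟩ := QRT.famC hc.hom hc.ok hj (v₀ := v₀) (hV_member hc.hom hc.ok h₀)
    exact evenP_all hc.hom (hN N le_rfl)
  · obtain ⟨N, hN⟩ := QRT.famJ hc.hom hc.ok hj
    exact evenP_all hc.hom (hN N le_rfl)

/-- **Even families.** -/
theorem even_kim {α B : Om k} {M : Mp (Om k) m} (hc : IsEven X α B M) :
    KAll.Kim (fun N => GT.Rat X (Fin N)) ⊤ ⊥ := by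
  have hX := hc.hom
  have hM := hc.ok
  obtain ⟨r, x, y, c, hxy, hcne, hsec⟩ := hc.section_
  have htop : ∃ c₀ : CH X Unit, Submodule.span ℚ (QRT.HVs hX hM) ⊔ Submodule.span ℚ {c₀} = ⊤ := by
    rcases isEmpty_or_nonempty (Place k (Om k)) with he | ⟨⟨v₀⟩⟩
    · refine ⟨0, ?_⟩
      rw [eq_top_iff]
      rintro c -
      obtain ⟨z, rfl⟩ := cl1_surj c
      have hz : z = 0 := by
        ext p
        obtain ⟨v, -⟩ := KAll.exists_value hc.toFam p
        exact he.elim v
      rw [hz, map_zero]
      exact Submodule.zero_mem _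
    choose q hq using fun i => KAll.value_of_pt hX hM v₀ (hxy i).1 (hxy i).2
    refine ⟨∑ i, c i • cl1 X (Finsupp.single (q i) 1), ?_⟩
    rw [eq_top_iff]
    rintro c' -
    obtain ⟨z, rfl⟩ := cl1_surj c'
    have hp : ∀ p : Pt X k, cl1 X (Finsupp.single p 1) ∈
        Submodule.span ℚ (QRT.HVs hX hM) ⊔
          Submodule.span ℚ {∑ i, c i • cl1 X (Finsupp.single (q i) 1)} := by
      intro p
      obtain ⟨v, x', y', hxy', -, hv⟩ := KAll.exists_value hc.toFam p
      choose p₀ hp₀ P hP using fun i =>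
        KAll.cls_point hX hM (hxy i).1 (hxy i).2 hxy' hv
      have h1 := hsec v v₀ p₀ q hp₀ hq
      rw [mem_ratZ, map_sum] at h1
      have h2 : ∀ (s : Pt X k) (a : ℚ), cl1 X (Finsupp.single s a) =
          a • cl1 X (Finsupp.single s 1) := by
        intro s a
        rw [← map_smul, Finsupp.smul_single, smul_eq_mul, mul_one]
      have h3 : (∑ i, c i) • cl1 X (Finsupp.single p 1) =
          ∑ i, c i • cl1 X (Finsupp.single (q i) 1) + ∑ i, c i • hV hX hM v (P i) := by
        have h4 : ∑ i, c i • cl1 X (Finsupp.single (p₀ i) 1) =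
            ∑ i, c i • cl1 X (Finsupp.single (q i) 1) := by
          rw [← sub_eq_zero, ← Finset.sum_sub_distrib, ← h1]
          refine Finset.sum_congr rfl fun i _ => ?_
          rw [map_sub, h2 (p₀ i) (c i), h2 (q i) (c i)]
        rw [Finset.sum_smul, ← h4, ← Finset.sum_add_distrib]
        refine Finset.sum_congr rfl fun i _ => ?_
        rw [hP i, smul_add]
      have h5 : cl1 X (Finsupp.single p 1) = (∑ i, c i)⁻¹ •
          (∑ i, c i • cl1 X (Finsupp.single (q i) 1) + ∑ i, c i • hV hX hM v (P i)) := by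
        rw [← h3, smul_smul, inv_mul_cancel₀ hcne, one_smul]
      rw [h5]
      refine Submodule.smul_mem _ _ (Submodule.add_mem _ ?_ ?_)
      · exact Submodule.mem_sup_right (Submodule.mem_span_singleton_self _)
      · exact Submodule.mem_sup_left (Submodule.sum_mem _ fun i _ =>
          Submodule.smul_mem _ _ (Submodule.subset_span ⟨v, P i, rfl⟩))
    rw [← Finsupp.sum_single z, map_finsuppSum]
    refine Submodule.sum_mem _ fun p _ => ?_
    have h2 : Finsupp.single p (z p) = z p • Finsupp.single p (1 : ℚ) := by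
      rw [Finsupp.smul_single, smul_eq_mul, mul_one]
    change cl1 X (Finsupp.single p (z p)) ∈ _
    rw [h2, map_smul]
    exact Submodule.smul_mem _ _ (hp p)
  obtain ⟨c₀, htop⟩ := htop
  have h2 := kim_of hX ((even_hv hc).sup (evenP_single hX c₀)) (oddP_bot hX)
    (by rw [htop, sup_bot_eq])
  rw [htop, Submodule.comap_top] at h2
  refine ⟨top_sup_eq _, ?_⟩
  obtain ⟨-, N', h3⟩ := h2
  refine ⟨N', fun n hn => ⟨(h3 n hn).1, fun z hz => ?_⟩⟩
  refine (h3 n hn).2 z fun j => ?_
  rw [(Submodule.mem_bot ℚ).1 (hz j)]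
  exact Submodule.zero_mem _

/-- **One factor.** -/
theorem fac2 {X : Var k} (hX : X.Adm) : ∃ A B : Submodule ℚ (X.Pts k →₀ ℚ),
    Kim (R1 X) A B ∧ (X.Evn → B = ⊥) := by
  cases X with
  | covered X =>
    by_cases h : ∃ (α B : Om k) (M : GT.Mp (Om k) _), IsEven X α B M
    · obtain ⟨α, B, M, hc⟩ := h
      exact ⟨⊤, ⊥, even_kim hc, fun _ => rfl⟩
    · obtain ⟨α, B, M, hF⟩ := hX
      obtain ⟨A, B', hA⟩ := fam_kim hF
      exact ⟨A, B', hA, fun h' => absurd h' h⟩
  | quartic F =>
    obtain ⟨A, B, h, h'⟩ := fac (X := .quartic F) hX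
    exact ⟨A, B, h, fun _ => h' trivial⟩
  | plane F =>
    obtain ⟨A, B, h, h'⟩ := fac (X := .plane F) hX
    exact ⟨A, B, h, fun _ => h' trivial⟩
  | lines F =>
    obtain ⟨A, B, h, h'⟩ := fac (X := .lines F) hX
    exact ⟨A, B, h, fun _ => h' trivial⟩

/-- **Products.** -/
theorem final2 {m : ℕ} (X : Fin m → Var k) (hX : ∀ a, (X a).Adm) :
    ∃ A B : Submodule ℚ ((∀ a, (X a).Pts k) →₀ ℚ), Kim (fun N => KAll.Rat X N) A B ∧
      ((∀ a, (X a).Evn) → B = ⊥) := by
  choose A B h h' using fun a => fac2 (hX a)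
  obtain ⟨A', B', h1, h2⟩ := kim_product X (fun a => hasBase (hX a)) A B h
  exact ⟨A', B', h1, fun hE => h2 fun a => h' a (hE a)⟩

end Pool.Agent.KSup
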