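import Pool.Agent.KSup.Assem
import Pool.Agent.KSup.Cls
import Pool.Agent.KMix.Main
import Pool.Agent.KMix.Deg

/-!
# Kimura's finiteness for products, and for their images
-/

set_option autoImplicit false

noncomputable section

namespace Pool.Agent.KAll

open Pool.Agent.VFP (Om)

variable {k : Type} [Field k]

/-- The variety with the equations `X` is the closure of a one-parameter family of curves of genus at
most one, or the form `F` has the degree `4` (quartic surface), `6` (double plane) or `3` (lines on a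
cubic fourfold), and is nonsingular. -/
def Var.Adm : Var k → Prop
  | .covered X => ∃ (α B : Om k) (M : GT.Mp (Om k) _), Fam X α B M
  | .quartic F => F.IsHomogeneous 4 ∧ KMix.NonSing F
  | .plane F => F.IsHomogeneous 6 ∧ KMix.NonSing F
  | .lines F => F.IsHomogeneous 3 ∧ KMix.NonSing F

/-- The variety is even: some member of the family, and some multisection, consist of rationally
equivalent points (no condition for the varieties of the other kinds). -/
def Var.Even : Var k → Prop
  | .covered X => Covered X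
  | .quartic _ => True
  | .plane _ => True
  | .lines _ => True

end Pool.Agent.KAll

namespace Pool.Agent.KSup

open Pool.Agent.ZCyc Pool.Agent.Dess Pool.Agent.KAll
open Pool.Agent.VFP (Om)
open scoped Classical

variable {k : Type} [Field k]

/-- the varieties without odd part: from the alternating sums of points to all cycles -/
private theorem kim_mix {X : KMix.Var k} (hB : KMix.Base X) (hF : KMix.Fin1 X) :
    Kim (KMix.Rat1 X) ⊤ ⊥ := by
  obtain ⟨n, -, hn⟩ := hF
  have h1 : ∀ z : Fin n → (X.Pts k →₀ ℚ), (∀ j, z j ∈ (⊤ : Submodule ℚ (X.Pts k →₀ ℚ))) →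
      CUB.alt z ∈ KMix.Rat1 X n := by
    intro z _
    refine CUB.alt_span (G := {w | ∃ p, w = Finsupp.single p 1}) (fun w hw => ?_) z fun j => ?_
    · choose p hp using hw
      rw [funext hp]
      exact hn p
    · rw [← Finsupp.sum_single (z j)]
      refine Submodule.sum_mem _ fun p _ => ?_
      have h2 : Finsupp.single p (z j p) = z j p • Finsupp.single p (1 : ℚ) := by
        rw [Finsupp.smul_single, smul_eq_mul, mul_one]
      change Finsupp.single p (z j p) ∈ _
      rw [h2]
      exact Submodule.smul_mem _ _ (Submodule.subset_span ⟨p, rfl⟩)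
  refine ⟨top_sup_eq _, max n 1, fun N hN => ⟨fun z _ => ?_, fun z hz => ?_⟩⟩
  · refine CUB.alt_many (KMix.rsys1 hB) h1 z Finset.univ ?_ fun j _ => trivial
    rw [Finset.card_univ, Fintype.card_fin]
    exact (le_max_left _ _).trans hN
  · have h0 : ∀ τ : Equiv.Perm (Fin N), GT.ext (fun j => z (τ j)) = 0 := by
      intro τ
      have hN1 : 0 < N := (le_max_right n 1).trans hN
      have hz0 : z (τ ⟨0, hN1⟩) = 0 := (Submodule.mem_bot ℚ).1 (hz _)
      unfold GT.ext
      refine Finset.sum_eq_zero fun x _ => ?_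
      have h2 : ∏ j, z (τ j) (x j) = 0 :=
        Finset.prod_eq_zero (Finset.mem_univ (⟨0, hN1⟩ : Fin N)) (by rw [hz0]; rfl)
      rw [h2, Finsupp.single_zero]
    rw [Finset.sum_eq_zero fun τ _ => h0 τ]
    exact Submodule.zero_mem _

theorem hasBase [CharZero k] {X : Var k} (hX : X.Adm) : HasBase X := by
  cases X with
  | covered X =>
    obtain ⟨α, B, M, hF⟩ := hX
    intro K _ _ _ y
    exact ⟨GT.Pt.map (Algebra.ofId k K) hF.hom y, fun v => GT.isVal_const⟩
  | quartic F => exact KMix.quartic_base (F := F) hX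
  | plane F => exact KMix.plane_base (F := F) hX
  | lines F => exact KMix.lines_base (F := F) hX

variable [IsAlgClosed k] [CharZero k]

/-- **One factor.** -/
theorem fac {X : Var k} (hX : X.Adm) : ∃ A B : Submodule ℚ (X.Pts k →₀ ℚ),
    Kim (R1 X) A B ∧ (X.Even → B = ⊥) := by
  cases X with
  | covered X =>
    by_cases h : Covered X
    · obtain ⟨α, B, M, hc⟩ := h
      obtain ⟨A, hA⟩ := cover_kim hc
      exact ⟨A, ⊥, hA, fun _ => rfl⟩
    · obtain ⟨α, B, M, hF⟩ := hX
      obtain ⟨A, B', hA⟩ := fam_kim hF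
      exact ⟨A, B', hA, fun h' => absurd h' h⟩
  | quartic F =>
    exact ⟨⊤, ⊥, kim_mix (KMix.quartic_base (F := F) hX) (KMix.quartic_fin (F := F) hX),
      fun _ => rfl⟩
  | plane F =>
    exact ⟨⊤, ⊥, kim_mix (KMix.plane_base (F := F) hX) (KMix.plane_fin (F := F) hX),
      fun _ => rfl⟩
  | lines F =>
    exact ⟨⊤, ⊥, kim_mix (KMix.lines_base (F := F) hX) (KMix.lines_fin (F := F) hX),
      fun _ => rfl⟩

/-- **Products and their images.** -/
theorem final {m : ℕ} (X : Fin m → Var k) (hX : ∀ a, (X a).Adm) :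
    ∃ A B : Submodule ℚ ((∀ a, (X a).Pts k) →₀ ℚ), Kim (fun N => Rat X N) A B ∧
      ((∀ a, (X a).Even) → B = ⊥) ∧
      ∀ (n : ℕ) (Y : Set (MvPolynomial (Fin (n + 1)) k)) (F : (∀ a, (X a).Pts k) → GT.Pt Y k),
        IsMor X Y F → Function.Surjective F → Kim (fun N => GT.Rat Y (Fin N))
          (A.map (Finsupp.lmapDomain ℚ ℚ F)) (B.map (Finsupp.lmapDomain ℚ ℚ F)) := by
  choose A B h h' using fun a => fac (hX a)
  obtain ⟨A', B', h1, h2⟩ := kim_product X (fun a => hasBase (hX a)) A B h
  exact ⟨A', B', h1, fun hE => h2 fun a => h' a (hE a), fun n Y F hF hs => Kim.push hF hs h1⟩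

end Pool.Agent.KSup
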