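import Pool.Agent.KSup.Prod

/-!
# Finiteness of the zero-cycles on products: the theorem

If the zero-cycles on the factors are finite in the sense of `Fac` then so are the zero-cycles on the
product.
-/

set_option autoImplicit false

noncomputable section

namespace Pool.Agent.KSup

open Finset Pool.Agent.GT Pool.Agent.ZIso
open scoped Classical

variable {m : ℕ} {P : Fin m → Type}

/-- the sign, or `1` -/
def chi (q : Bool) {N : ℕ} (π : Equiv.Perm (Fin N)) : ℚ :=
  if q then 1 else ((Equiv.Perm.sign π : ℤ) : ℚ)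

theorem chi_mul (q : Bool) {N : ℕ} (π ρ : Equiv.Perm (Fin N)) :
    chi q (π * ρ) = chi q π * chi q ρ := by
  unfold chi
  cases q
  · simp [Equiv.Perm.sign_mul]
  · simp

theorem chi_via (q : Bool) {n N : ℕ} (g : Fin n ↪ Fin N) (τ : Equiv.Perm (Fin n)) :
    chi q (τ.viaFintypeEmbedding g) = chi q τ := by
  unfold chi
  rw [Equiv.Perm.viaFintypeEmbedding_sign]

/-- the parity of the number of letters of odd kinds -/
def par (p : Fin m → Bool) : Bool := decide (Odd (Finset.univ.filter fun a => p a = true).card)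

theorem epsB_eq (p : Fin m → Bool) {N : ℕ} (π : Equiv.Perm (Fin N)) :
    epsB p π = chi (par p) π := by
  unfold epsB chi par
  rw [Finset.prod_ite, Finset.prod_const, Finset.prod_const_one, mul_one]
  rcases Int.units_eq_one_or (Equiv.Perm.sign π) with h | h
  · rw [h]
    simp
  · rw [h]
    by_cases ho : Odd (Finset.univ.filter fun a => p a = true).card
    · simp only [ho, decide_true, if_true]
      rw [Units.val_neg, Units.val_one, Int.cast_neg, Int.cast_one, ho.neg_one_pow]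
      norm_num
    · simp only [ho, decide_false]
      rw [Units.val_neg, Units.val_one, Int.cast_neg, Int.cast_one,
        (Nat.not_odd_iff_even.1 ho).neg_one_pow]
      norm_num

theorem tens_perm {N : ℕ} (y : Fin N → ∀ a, P a →₀ ℚ) (π : Equiv.Perm (Fin N)) :
    tens (fun b => y (π b)) =
      Finsupp.lmapDomain ℚ ℚ (fun (x : Fin N → ∀ a, P a) b => x (π b)) (tens y) := by
  unfold tens
  exact ext_perm (fun b => prodc (y b)) π

section Product

variable {R1 : ∀ (a : Fin m) (n : ℕ), Submodule ℚ ((Fin n → P a) →₀ ℚ)} {n : Fin m → ℕ}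
  {A B : ∀ a, Submodule ℚ (P a →₀ ℚ)}

/-- permutations of all blocks -/
theorem all_blocks {N : ℕ} {R : Submodule ℚ ((Fin N → ∀ a, P a) →₀ ℚ)}
    (hins : ∀ (i : Fin m) (l : ℕ) (g : Fin l ↪ Fin N) (x : Fin N → ∀ a, P a)
      (z : (Fin l → P i) →₀ ℚ), z ∈ R1 i l → Finsupp.lmapDomain ℚ ℚ (ins g i x) z ∈ R)
    (hperm : ∀ (π : Equiv.Perm (Fin N)) (z : (Fin N → ∀ a, P a) →₀ ℚ), z ∈ R →
      Finsupp.lmapDomain ℚ ℚ (fun (x : Fin N → ∀ a, P a) b => x (π b)) z ∈ R)
    (hF : ∀ a, Fac (R1 a) (n a) (A a) (B a)) (q : Bool)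
    (hN : 2 ^ m * ((∑ a, n a) ^ m + 1) < N) (y : Fin N → ∀ a, P a →₀ ℚ)
    (t : Fin N → Fin m → Bool) (ht : ∀ b, par (t b) = q)
    (hy : ∀ b a, y b a ∈ if t b a then B a else A a) :
    ∑ π : Equiv.Perm (Fin N), chi q π • tens (fun b => y (π b)) ∈ R := by
  set M := (∑ a, n a) ^ m + 1 with hM
  obtain ⟨p, hp⟩ := Fintype.exists_lt_card_fiber_of_mul_lt_card (f := t) (n := M) (by
    rw [Fintype.card_fun, Fintype.card_bool, Fintype.card_fin, Fintype.card_fin]
    exact hN)
  obtain ⟨J, hJ, hJc⟩ := Finset.exists_subset_card_eq hp.le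
  let E₀ := (J.equivFinOfCardEq hJc).symm
  let g : Fin M ↪ Fin N := ⟨fun s => (E₀ s : Fin N), fun s s' h => E₀.injective (Subtype.ext h)⟩
  have hg : ∀ s, t (g s) = p := fun s => (Finset.mem_filter.1 (hJ (E₀ s).2)).2
  have hpq : par p = q := by
    have hM0 : 0 < M := Nat.succ_pos _
    rw [← hg ⟨0, hM0⟩]
    exact ht _
  have h1 := blocks g hins hF p (Nat.lt_succ_self _) y fun s a => by
    have := hy (g s) a
    rw [hg s] at this
    exact this
  simp_rw [epsB_eq, hpq] at h1
  set S := ∑ π : Equiv.Perm (Fin N), chi q π • tens (fun b => y (π b)) with hS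
  have h2 : ∀ τ : Equiv.Perm (Fin M), ∑ π : Equiv.Perm (Fin N),
      chi q π • (chi q τ • tens (fun b => y (τ.viaFintypeEmbedding g (π b)))) = S := by
    intro τ
    rw [hS, ← Equiv.sum_comp (Equiv.mulLeft (τ.viaFintypeEmbedding g))
      (fun π => chi q π • tens (fun b => y (π b)))]
    refine Finset.sum_congr rfl fun π _ => ?_
    have h3 : Equiv.mulLeft (τ.viaFintypeEmbedding g) π = τ.viaFintypeEmbedding g * π := rfl
    rw [h3, chi_mul, chi_via, smul_smul, mul_comm (chi q π)]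
    rfl
  have h3 : ∑ τ : Equiv.Perm (Fin M), ∑ π : Equiv.Perm (Fin N),
      chi q π • (chi q τ • tens (fun b => y (τ.viaFintypeEmbedding g (π b)))) ∈ R := by
    rw [Finset.sum_comm]
    refine Submodule.sum_mem _ fun π _ => ?_
    rw [← Finset.smul_sum]
    refine Submodule.smul_mem _ _ ?_
    have h4 := hperm π _ h1
    rw [map_sum] at h4
    have h5 : ∀ τ : Equiv.Perm (Fin M), Finsupp.lmapDomain ℚ ℚ (fun (x : Fin N → ∀ a, P a) b =>
        x (π b)) (chi q τ • tens (fun b => y (τ.viaFintypeEmbedding g b))) =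
        chi q τ • tens (fun b => y (τ.viaFintypeEmbedding g (π b))) := by
      intro τ
      rw [map_smul, ← tens_perm]
    rw [Finset.sum_congr rfl fun τ _ => h5 τ] at h4
    exact h4
  rw [Finset.sum_congr rfl fun τ _ => h2 τ, Finset.sum_const, ← Nat.cast_smul_eq_nsmul ℚ] at h3
  have h6 : ((Finset.univ : Finset (Equiv.Perm (Fin M))).card : ℚ) ≠ 0 := by
    rw [Nat.cast_ne_zero, Finset.card_ne_zero]
    exact ⟨1, Finset.mem_univ _⟩
  have h7 := Submodule.smul_mem R (((Finset.univ : Finset (Equiv.Perm (Fin M))).card : ℚ)⁻¹) h3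
  rwa [smul_smul, inv_mul_cancel₀ h6, one_smul] at h7

/-- the span of the products of cycles in `A a` and `B a`, the number of the factors in `B a` is even
(`q = false`) or odd (`q = true`) -/
def PQ (A B : ∀ a, Submodule ℚ (P a →₀ ℚ)) (q : Bool) : Submodule ℚ ((∀ a, P a) →₀ ℚ) :=
  Submodule.span ℚ {z | ∃ (t : Fin m → Bool) (y : ∀ a, P a →₀ ℚ), par t = q ∧
    (∀ a, y a ∈ if t a then B a else A a) ∧ z = prodc y}

theorem PQ_top (h : ∀ a, A a ⊔ B a = ⊤) : PQ A B false ⊔ PQ A B true = ⊤ := by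
  obtain ⟨D, hD⟩ := prodc_linear P
  have h1 : ∀ y : ∀ a, P a →₀ ℚ, D y ∈ PQ A B false ⊔ PQ A B true := by
    intro y
    have h2 : ∀ a, ∃ u ∈ B a, ∃ v ∈ A a, u + v = y a := by
      intro a
      have h3 : y a ∈ B a ⊔ A a := by
        rw [sup_comm, h a]
        exact Submodule.mem_top
      exact Submodule.mem_sup.1 h3
    choose u hu v hv huv using h2
    have h3 : y = u + v := funext fun a => (huv a).symm
    rw [h3, MultilinearMap.map_add_univ]
    refine Submodule.sum_mem _ fun s _ => ?_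
    rw [hD]
    have h4 : prodc (s.piecewise u v) ∈ PQ A B (par fun a => decide (a ∈ s)) := by
      refine Submodule.subset_span ⟨fun a => decide (a ∈ s), _, rfl, fun a => ?_, rfl⟩
      by_cases ha : a ∈ s
      · simp only [ha, decide_true, if_true, Finset.piecewise_eq_of_mem]
        exact hu a
      · simp only [ha, decide_false, Finset.piecewise_eq_of_notMem, not_false_eq_true]
        exact hv a
    cases hpar : par fun a => decide (a ∈ s)
    · rw [hpar] at h4
      exact Submodule.mem_sup_left h4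
    · rw [hpar] at h4
      exact Submodule.mem_sup_right h4
  rw [eq_top_iff]
  intro z _
  rw [← Finsupp.sum_single z]
  refine Submodule.sum_mem _ fun x _ => ?_
  have h2 : Finsupp.single x (z x) = z x • D fun a => Finsupp.single (x a) (1 : ℚ) := by
    rw [hD, prodc_single, Finsupp.smul_single, smul_eq_mul, mul_one]
  rw [h2]
  exact Submodule.smul_mem _ _ (h1 _)

theorem PQ_bot (h : ∀ a, B a = ⊥) : PQ A B true = ⊥ := by
  obtain ⟨D, hD⟩ := prodc_linear P
  rw [PQ, Submodule.span_eq_bot]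
  rintro _ ⟨t, y, ht, hy, rfl⟩
  have h1 : ∃ a, t a = true := by
    by_contra hcon
    push Not at hcon
    have h2 : (Finset.univ.filter fun a => t a = true) = ∅ := by
      rw [Finset.filter_eq_empty_iff]
      intro a _
      exact hcon a
    unfold par at ht
    rw [h2] at ht
    simp at ht
  obtain ⟨a, ha⟩ := h1
  have h2 := hy a
  rw [if_pos ha, h a, Submodule.mem_bot] at h2
  rw [← hD]
  exact D.map_coord_zero a h2

/-- a multilinear map which is zero on generators -/
theorem ml_span {W T : Type} [AddCommGroup W] [Module ℚ W] [AddCommGroup T] [Module ℚ T] {N : ℕ}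
    (F : MultilinearMap ℚ (fun _ : Fin N => W) T) (G : Set W) (h : ∀ z, (∀ j, z j ∈ G) → F z = 0)
    (z : Fin N → W) (hz : ∀ j, z j ∈ Submodule.span ℚ G) : F z = 0 := by
  have key : ∀ (s : Finset (Fin N)) (z : Fin N → W), (∀ j ∈ s, z j ∈ Submodule.span ℚ G) →
      (∀ j ∉ s, z j ∈ G) → F z = 0 := by
    intro s
    induction s using Finset.induction_on with
    | empty =>
      intro z _ h2
      exact h z fun j => h2 j (Finset.notMem_empty j)
    | insert i s hi ih =>
      intro z h1 h2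
      have h3 : Submodule.span ℚ G ≤ LinearMap.ker (F.toLinearMap z i) := by
        refine Submodule.span_le.2 fun w hw => ?_
        change F.toLinearMap z i w = 0
        rw [MultilinearMap.toLinearMap_apply]
        refine ih _ (fun j hj => ?_) fun j hj => ?_
        · rw [Function.update_of_ne (show j ≠ i from fun h => hi (h ▸ hj))]
          exact h1 j (Finset.mem_insert_of_mem hj)
        · by_cases hji : j = i
          · subst hji
            rw [Function.update_self]
            exact hw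
          · rw [Function.update_of_ne hji]
            exact h2 j fun h => (Finset.mem_insert.1 h).elim hji hj
      have h4 := h3 (h1 i (Finset.mem_insert_self i s))
      rw [LinearMap.mem_ker, MultilinearMap.toLinearMap_apply, Function.update_eq_self] at h4
      exact h4
  exact key Finset.univ z (fun j _ => hz j) fun j hj => absurd (Finset.mem_univ j) hj

theorem PQ_sum {N : ℕ} {R : Submodule ℚ ((Fin N → ∀ a, P a) →₀ ℚ)}
    (hins : ∀ (i : Fin m) (l : ℕ) (g : Fin l ↪ Fin N) (x : Fin N → ∀ a, P a)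
      (z : (Fin l → P i) →₀ ℚ), z ∈ R1 i l → Finsupp.lmapDomain ℚ ℚ (ins g i x) z ∈ R)
    (hperm : ∀ (π : Equiv.Perm (Fin N)) (z : (Fin N → ∀ a, P a) →₀ ℚ), z ∈ R →
      Finsupp.lmapDomain ℚ ℚ (fun (x : Fin N → ∀ a, P a) b => x (π b)) z ∈ R)
    (hF : ∀ a, Fac (R1 a) (n a) (A a) (B a)) (q : Bool)
    (hN : 2 ^ m * ((∑ a, n a) ^ m + 1) < N) (z : Fin N → ((∀ a, P a) →₀ ℚ))
    (hz : ∀ j, z j ∈ PQ A B q) :
    ∑ π : Equiv.Perm (Fin N), chi q π • ext (fun b => z (π b)) ∈ R := by
  obtain ⟨F, hF'⟩ := ext_linear (∀ a, P a) N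
  let Φ : MultilinearMap ℚ (fun _ : Fin N => ((∀ a, P a) →₀ ℚ))
      (((Fin N → ∀ a, P a) →₀ ℚ) ⧸ R) :=
    ∑ π : Equiv.Perm (Fin N), chi q π • R.mkQ.compMultilinearMap (F.domDomCongr π)
  have hΦ : ∀ z, Φ z = R.mkQ (∑ π : Equiv.Perm (Fin N), chi q π • ext (fun b => z (π b))) := by
    intro z
    rw [_root_.sum_apply, map_sum]
    refine Finset.sum_congr rfl fun π _ => ?_
    rw [_root_.smul_apply, LinearMap.compMultilinearMap_apply,
      MultilinearMap.domDomCongr_apply, hF', map_smul]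
  rw [← Submodule.Quotient.mk_eq_zero, ← Submodule.mkQ_apply, ← hΦ]
  refine ml_span Φ _ (fun z hz => ?_) z hz
  choose t y ht hy hzy using hz
  have hz' : z = fun b => prodc (y b) := funext hzy
  rw [hΦ, hz', Submodule.mkQ_apply, Submodule.Quotient.mk_eq_zero]
  exact all_blocks hins hperm hF q hN y t ht hy

end Product

/-- **Products.** -/
theorem product (R : ∀ N, Submodule ℚ ((Fin N → ∀ a, P a) →₀ ℚ))
    (R1 : ∀ (a : Fin m) (n : ℕ), Submodule ℚ ((Fin n → P a) →₀ ℚ))
    (hins : ∀ (N : ℕ) (i : Fin m) (l : ℕ) (g : Fin l ↪ Fin N) (x : Fin N → ∀ a, P a)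
      (z : (Fin l → P i) →₀ ℚ), z ∈ R1 i l → Finsupp.lmapDomain ℚ ℚ (ins g i x) z ∈ R N)
    (hperm : ∀ (N : ℕ) (π : Equiv.Perm (Fin N)) (z : (Fin N → ∀ a, P a) →₀ ℚ), z ∈ R N →
      Finsupp.lmapDomain ℚ ℚ (fun (x : Fin N → ∀ a, P a) b => x (π b)) z ∈ R N)
    (n : Fin m → ℕ) (A B : ∀ a, Submodule ℚ (P a →₀ ℚ)) (hF : ∀ a, Fac (R1 a) (n a) (A a) (B a)) :
    ∃ (N₀ : ℕ) (A' B' : Submodule ℚ ((∀ a, P a) →₀ ℚ)), A' ⊔ B' = ⊤ ∧
      ((∀ a, B a = ⊥) → B' = ⊥) ∧
      (∀ N ≥ N₀, ∀ z : Fin N → ((∀ a, P a) →₀ ℚ), (∀ j, z j ∈ A') →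
        ∑ τ : Equiv.Perm (Fin N), ((Equiv.Perm.sign τ : ℤˣ) : ℤ) • ext (fun j => z (τ j)) ∈ R N) ∧
      (∀ N ≥ N₀, ∀ z : Fin N → ((∀ a, P a) →₀ ℚ), (∀ j, z j ∈ B') →
        ∑ τ : Equiv.Perm (Fin N), ext (fun j => z (τ j)) ∈ R N) := by
  refine ⟨2 ^ m * ((∑ a, n a) ^ m + 1) + 1, PQ A B false, PQ A B true,
    PQ_top fun a => (hF a).top, PQ_bot, fun N hN z hz => ?_, fun N hN z hz => ?_⟩
  · have h := PQ_sum (hins N) (hperm N) hF false hN z hz
    have h1 : ∀ τ : Equiv.Perm (Fin N), chi false τ • ext (fun b => z (τ b)) =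
        ((Equiv.Perm.sign τ : ℤˣ) : ℤ) • ext (fun j => z (τ j)) := by
      intro τ
      unfold chi
      simp only [Bool.false_eq_true, if_false]
      rw [Int.cast_smul_eq_zsmul]
    rwa [Finset.sum_congr rfl fun τ _ => h1 τ] at h
  · have h := PQ_sum (hins N) (hperm N) hF true hN z hz
    have h1 : ∀ τ : Equiv.Perm (Fin N), chi true τ • ext (fun b => z (τ b)) =
        ext (fun j => z (τ j)) := by
      intro τ
      unfold chi
      simp only [if_true, one_smul]
    rwa [Finset.sum_congr rfl fun τ _ => h1 τ] at h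

end Pool.Agent.KSup
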