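import Pool.Agent.GT.Alt
import Pool.Agent.GT.IsoA
import Pool.Agent.EFC.Pencil
import Pool.Agent.TInc.Riem

/-!
# The odd part of a curve

For a point `x` of the variety `X` over the function field of a curve of genus `g` the symmetric
sums of the exterior products of `n ≥ g + 1` differences of values of `x` at places are zero.
-/

set_option autoImplicit false

noncomputable section

namespace Pool.Agent.KSup

open Pool.Agent.ZCyc Pool.Agent.Dess Pool.Agent.TInc Pool.Agent.GT
open Pool.Agent.VFP (Om tt)
open scoped Classical LinearAlgebra.Projectivization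

/-- the symmetric sum of a multilinear map over the permutations of the arguments -/
def Sym {n : ℕ} {V W : Type} [AddCommGroup V] [Module ℚ V] [AddCommGroup W] [Module ℚ W]
    (E : MultilinearMap ℚ (fun _ : Fin n => V) W) : MultilinearMap ℚ (fun _ : Fin n => V) W :=
  ∑ π : Equiv.Perm (Fin n), E.domDomCongr π⁻¹

section

variable {n : ℕ} {V W : Type} [AddCommGroup V] [Module ℚ V] [AddCommGroup W] [Module ℚ W]
  (E : MultilinearMap ℚ (fun _ : Fin n => V) W)

theorem Sym_apply (w : Fin n → V) :
    Sym E w = ∑ π : Equiv.Perm (Fin n), E (fun j => w (π j)) := by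
  unfold Sym
  rw [sum_apply, ← Equiv.sum_comp (Equiv.inv (Equiv.Perm (Fin n)))]
  refine Finset.sum_congr rfl fun π _ => ?_
  rw [MultilinearMap.domDomCongr_apply]
  simp only [Equiv.inv_apply, inv_inv]

theorem Sym_perm (w : Fin n → V) (π : Equiv.Perm (Fin n)) :
    Sym E (fun j => w (π j)) = Sym E w := by
  rw [Sym_apply, Sym_apply]
  exact Fintype.sum_equiv (Equiv.mulLeft π) _ _ fun σ => rfl

theorem Sym_zero (w : Fin n → V) (j : Fin n) (h : w j = 0) : Sym E w = 0 :=
  (Sym E).map_coord_zero j h

/-- a multilinear map which is zero if the arguments in `T` are in a set is zero if they are in the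
span of the set -/
theorem multi_span (F : MultilinearMap ℚ (fun _ : Fin n => V) W) {G : Set V} (T : Finset (Fin n))
    (h : ∀ w : Fin n → V, (∀ j ∈ T, w j ∈ G) → F w = 0) (w : Fin n → V)
    (hw : ∀ j ∈ T, w j ∈ Submodule.span ℚ G) : F w = 0 := by
  have key : ∀ T' : Finset (Fin n), ∀ w : Fin n → V, (∀ j ∈ T', w j ∈ Submodule.span ℚ G) →
      (∀ j ∈ T, j ∉ T' → w j ∈ G) → F w = 0 := by
    intro T'
    induction T' using Finset.induction_on with
    | empty => exact fun w _ hw => h w fun j hj => hw j hj (Finset.notMem_empty j)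
    | insert a T' ha ih =>
      intro w h1 h2
      have h3 : w a ∈ Submodule.span ℚ G := h1 a (Finset.mem_insert_self _ _)
      have h4 : ∀ u ∈ Submodule.span ℚ G, F (Function.update w a u) = 0 := by
        intro u hu
        induction hu using Submodule.span_induction with
        | mem u hu =>
          refine ih _ (fun j hj => ?_) fun j hjT hj => ?_
          · have hja : j ≠ a := fun h => ha (h ▸ hj)
            rw [Function.update_of_ne hja]
            exact h1 j (Finset.mem_insert_of_mem hj)
          · by_cases hja : j = a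
            · rw [hja, Function.update_self]
              exact hu
            · rw [Function.update_of_ne hja]
              exact h2 j hjT fun h => (Finset.mem_insert.1 h).elim hja hj
        | zero => exact F.map_update_zero _ _
        | add u u' _ _ hu hu' => rw [F.map_update_add, hu, hu', add_zero]
        | smul a' u _ hu => rw [F.map_update_smul, hu, smul_zero]
      rw [← h4 _ h3, Function.update_eq_self]
  exact key T w hw fun j hj hj' => absurd hj hj'

end

variable {k : Type} [Field k] [IsAlgClosed k] [CharZero k] {m : ℕ}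
  {X : Set (MvPolynomial (Fin (m + 1)) k)} {n : ℕ}

/-- symmetric sums of cycles over `Om k` and their limits -/
theorem lim_sym (hX : Hom X) (v : Place k (Om k)) (z : Fin n → (Pt X (Om k) →₀ ℚ)) :
    lim hX v (∑ π : Equiv.Perm (Fin n), ext (fun j => z (π j))) =
      Sym (Ext hX n) (fun j => lim1 hX v (z j)) := by
  rw [Sym_apply, map_sum]
  exact Finset.sum_congr rfl fun π _ => lim_ext hX v fun j => z (π j)

/-- the same over `k` -/
theorem cl_sym (hX : Hom X) (z : Fin n → (Pt X k →₀ ℚ)) :
    (Submodule.Quotient.mk (∑ π : Equiv.Perm (Fin n), ext (fun j => z (π j))) :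
      CH X (Fin n)) = Sym (Ext hX n) (fun j => cl1 X (z j)) := by
  rw [Sym_apply, ← Submodule.mkQ_apply, map_sum]
  refine Finset.sum_congr rfl fun π _ => ?_
  rw [Submodule.mkQ_apply, Ext_cl hX fun j => z (π j)]

omit [IsAlgClosed k] [CharZero k] in
theorem lim1_single [HasRes k (Om k)] (hX : Hom X) (v : Place k (Om k)) (x : Pt X (Om k))
    {y : Pt X k} (h : IsVal v x y) :
    lim1 hX v (Finsupp.single x 1) = cl1 X (Finsupp.single y 1) := by
  have h5 : pv hX v x = y := pv_eq h
  change lim hX v (Finsupp.lmapDomain ℚ ℚ (fun x _ => x) (Finsupp.single x (1 : ℚ))) =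
    Submodule.Quotient.mk (Finsupp.lmapDomain ℚ ℚ (fun x _ => x) (Finsupp.single y (1 : ℚ)))
  rw [Finsupp.lmapDomain_apply, Finsupp.mapDomain_single, Finsupp.lmapDomain_apply,
    Finsupp.mapDomain_single, lim_single]
  simp only [h5]

/-- the differences of the classes of the values of `x` at places -/
def Diffs (X : Set (MvPolynomial (Fin (m + 1)) k)) {L : Type} [Field L] [Algebra k L]
    (x : Pt X L) : Set (CH X Unit) :=
  {c | ∃ (v v' : Place k L) (y y' : Pt X k), IsVal v x y ∧ IsVal v' x y' ∧
    c = cl1 X (Finsupp.single y 1) - cl1 X (Finsupp.single y' 1)}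

/-- `g + 1` differences with a fixed point, other factors arbitrary -/
private theorem odd_aux (hX : Hom X) {L : Type} [Field L] [Algebra k L] (hL : IsCurve k L)
    [HasRes k L] (x : Pt X L) (hn : EFC.genus k L + 1 ≤ n) (c : Fin (EFC.genus k L + 1) → Place k L)
    (o : Place k L) (w : Fin n → CH X Unit)
    (hw : ∀ i, w (Fin.castLE hn i) = cl1 X (Finsupp.single (pv hX (c i) x) 1) -
      cl1 X (Finsupp.single (pv hX o x) 1)) : Sym (Ext hX n) w = 0 := by
  by_cases hco : ∃ i, c i = o
  · obtain ⟨i, hi⟩ := hco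
    refine Sym_zero _ _ (Fin.castLE hn i) ?_
    rw [hw, hi, sub_self]
  push Not at hco
  obtain ⟨S, hS0, hS1⟩ := EFC.exists_pencil (L := L) hL (exists_genus hL) c o hco
  choose z hz using fun j => exists_constCyc hX (w j)
  -- the points over `Om k`
  let y : Fin (EFC.genus k L + 1) → Pt X (Om k) := fun i =>
    (S i).elim (fun σ => x.map σ hX) fun c' => (pv hX c' x).map (Algebra.ofId k (Om k)) hX
  let o' : Pt X (Om k) := (pv hX o x).map (Algebra.ofId k (Om k)) hX
  let Z : Fin n → (Pt X (Om k) →₀ ℚ) := fun j =>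
    if h : (j : ℕ) < EFC.genus k L + 1 then
      Finsupp.single (y ⟨j, h⟩) 1 - Finsupp.single o' 1 else z j
  have hy : ∀ (v : Place k (Om k)) (i : Fin (EFC.genus k L + 1)) (c' : Place k L),
      EFC.BaseValue v (S i) c' → IsVal v (y i) (pv hX c' x) := by
    intro v i c' h
    simp only [y]
    cases hS : S i with
    | inl σ =>
      rw [hS] at h
      exact (isVal_map (show v.ring.comap (σ : L →+* Om k) = c'.ring from h.symm)).2
        (pv_spec hX c' x)
    | inr c'' =>
      rw [hS] at h
      have h1 : c'' = c' := h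
      subst h1
      exact isVal_const
  have ho' : ∀ v : Place k (Om k), IsVal v o' (pv hX o x) := fun v => isVal_const
  have hZ1 : ∀ (v : Place k (Om k)) (c' : Fin (EFC.genus k L + 1) → Place k L),
      (∀ i, EFC.BaseValue v (S i) (c' i)) → ∀ j, lim1 hX v (Z j) =
        if h : (j : ℕ) < EFC.genus k L + 1 then
          cl1 X (Finsupp.single (pv hX (c' ⟨j, h⟩) x) 1) - cl1 X (Finsupp.single (pv hX o x) 1)
        else w j := by
    intro v c' hc' j
    simp only [Z]
    split_ifs with h
    · rw [map_sub, lim1_single hX v _ (hy v _ _ (hc' _)), lim1_single hX v _ (ho' v)]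
    · exact hz j v
  refine bridge hX (∑ π : Equiv.Perm (Fin n), ext (fun j => Z (π j))) (c₀ := 0) (c₁ := 1)
    (fun v hv => ?_) fun v hv => ?_
  · obtain ⟨π, hπ⟩ := hS0 v hv
    rw [lim_sym]
    -- the permutation of all factors
    let e : Fin (EFC.genus k L + 1) ↪ Fin n := ⟨Fin.castLE hn, Fin.castLE_injective hn⟩
    let ρ : Equiv.Perm (Fin n) := π.viaFintypeEmbedding e
    have hρ1 : ∀ i, ρ (Fin.castLE hn i) = Fin.castLE hn (π i) := fun i =>
      Equiv.Perm.viaFintypeEmbedding_apply_image π e i
    have hρ2 : ∀ j : Fin n, ¬ (j : ℕ) < EFC.genus k L + 1 → ρ j = j := by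
      intro j hj
      refine Equiv.Perm.viaFintypeEmbedding_apply_notMem_range π e ?_
      rintro ⟨i, hi⟩
      apply hj
      rw [← hi]
      exact i.2
    rw [← Sym_perm _ w ρ]
    congr 1
    funext j
    rw [hZ1 v _ hπ]
    split_ifs with h
    · have h1 : j = Fin.castLE hn ⟨j, h⟩ := rfl
      conv_rhs => rw [h1, hρ1, hw]
    · rw [hρ2 j h]
  · obtain ⟨i, hi⟩ := hS1 v hv
    rw [lim_sym]
    choose c' hc' using fun i => EFC.exists_baseValue (L := L) hL v (S i)
    refine Sym_zero _ _ (Fin.castLE hn i) ?_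
    rw [hZ1 v _ hc', dif_pos (show ((Fin.castLE hn i : Fin n) : ℕ) < _ from i.2)]
    have h1 : c' i = o := (hc' i).unique hi
    rw [show (⟨((Fin.castLE hn i : Fin n) : ℕ), i.2⟩ : Fin (EFC.genus k L + 1)) = i from rfl, h1,
      sub_self]

/-- **The odd part of a curve.** The symmetric sums of products are zero if `N` factors are
differences of values of one point over the function field of a curve. -/
theorem odd_curve (hX : Hom X) {L : Type} [Field L] [Algebra k L] (hL : IsCurve k L)
    (x : Pt X L) : ∃ N, 0 < N ∧ ∀ n, N ≤ n → ∀ w : Fin n → CH X Unit,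
      (∀ j : Fin n, (j : ℕ) < N → w j ∈ Submodule.span ℚ (Diffs X x)) →
      Sym (Ext hX n) w = 0 := by
  have : HasRes k L := hasRes_of_isCurve hL
  obtain ⟨o⟩ := EFC.IsCurve.nonempty (k := k) (L := L) hL
  let G : Set (CH X Unit) := {c | ∃ v : Place k L, c = cl1 X (Finsupp.single (pv hX v x) 1) -
    cl1 X (Finsupp.single (pv hX o x) 1)}
  have hG : Submodule.span ℚ (Diffs X x) ≤ Submodule.span ℚ G := by
    refine Submodule.span_le.2 ?_
    rintro _ ⟨v, v', y, y', h, h', rfl⟩
    have h1 : y = pv hX v x := (pv_eq h).symm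
    have h2 : y' = pv hX v' x := (pv_eq h').symm
    have h3 : cl1 X (Finsupp.single y 1) - cl1 X (Finsupp.single y' 1) =
        (cl1 X (Finsupp.single (pv hX v x) 1) - cl1 X (Finsupp.single (pv hX o x) 1)) -
        (cl1 X (Finsupp.single (pv hX v' x) 1) - cl1 X (Finsupp.single (pv hX o x) 1)) := by
      rw [h1, h2]
      abel
    rw [h3]
    exact Submodule.sub_mem _ (Submodule.subset_span ⟨v, rfl⟩) (Submodule.subset_span ⟨v', rfl⟩)
  refine ⟨EFC.genus k L + 1, Nat.succ_pos _, fun n hn w hw => ?_⟩
  refine multi_span (Sym (Ext hX n)) (G := G)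
    (Finset.univ.filter fun j : Fin n => (j : ℕ) < EFC.genus k L + 1) (fun w hw => ?_) w
    fun j hj => hG (hw j (Finset.mem_filter.1 hj).2)
  have h1 : ∀ i : Fin (EFC.genus k L + 1), ∃ v : Place k L,
      w (Fin.castLE hn i) = cl1 X (Finsupp.single (pv hX v x) 1) -
        cl1 X (Finsupp.single (pv hX o x) 1) := fun i =>
    hw _ (Finset.mem_filter.2 ⟨Finset.mem_univ _, i.2⟩)
  choose c hc using h1
  exact odd_aux hX hL x hn c o w hc

end Pool.Agent.KSup
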