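import Pool.Agent.KSup.Odd
import Pool.Agent.CUB.AltC
import Pool.Agent.QRT.EllJ

/-!
# Even and odd subspaces of the group of zero-cycles
-/

set_option autoImplicit false

noncomputable section

namespace Pool.Agent.KSup

open Pool.Agent.ZCyc Pool.Agent.Dess Pool.Agent.TInc Pool.Agent.GT
open Pool.Agent.VFP (Om tt)
open scoped Classical LinearAlgebra.Projectivization

/-- a permutation which moves the first indices into `J` -/
theorem exists_front {n N : ℕ} (J : Finset (Fin n)) (hJ : N ≤ J.card) :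
    ∃ σ : Equiv.Perm (Fin n), ∀ j : Fin n, (j : ℕ) < N → σ j ∈ J := by
  obtain ⟨J', hJ', hcard⟩ := Finset.exists_subset_card_eq hJ
  have hNn : N ≤ n := hJ.trans (by simpa using Finset.card_le_univ J)
  have h0 : Nat.card {x : Fin n // x.val < N} = N := by
    rw [Nat.card_congr (Fin.castLEquiv hNn).symm]
    simp
  have h1 : Fintype.card {x : Fin n // x.val < N} = Fintype.card {x : Fin n // x ∈ J'} := by
    rw [← Nat.card_eq_fintype_card, h0]
    simp [hcard]
  let e₀ : {x : Fin n // x.val < N} ≃ {x : Fin n // x ∈ J'} := Fintype.equivOfCardEq h1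
  exact ⟨e₀.extendSubtype, fun j hj => hJ' (Equiv.extendSubtype_mem e₀ _ hj)⟩

section

variable {n : ℕ} {V W : Type} [AddCommGroup V] [Module ℚ V] [AddCommGroup W] [Module ℚ W]
  {F : MultilinearMap ℚ (fun _ : Fin n => V) W}

/-- the sum of two subspaces -/
theorem sup_gen (hF : ∀ (w : Fin n → V) (π : Equiv.Perm (Fin n)),
      F (fun j => w (π j)) = 0 → F w = 0) {S T : Submodule ℚ V} {N M : ℕ}
    (hS : ∀ w : Fin n → V, (∀ j : Fin n, (j : ℕ) < N → w j ∈ S) → F w = 0)
    (hT : ∀ w : Fin n → V, (∀ j : Fin n, (j : ℕ) < M → w j ∈ T) → F w = 0)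
    (hn : N + M ≤ n) (w : Fin n → V)
    (hw : ∀ j : Fin n, (j : ℕ) < N + M → w j ∈ S ⊔ T) : F w = 0 := by
  have hG : S ⊔ T = Submodule.span ℚ ((S : Set V) ∪ T) := by
    rw [Submodule.span_union, Submodule.span_eq, Submodule.span_eq]
  set U : Finset (Fin n) := Finset.univ.filter fun j : Fin n => (j : ℕ) < N + M with hU
  have hUc : U.card = N + M := by
    rw [hU, Fin.card_filter_val_lt]
    omega
  refine multi_span F (G := (S : Set V) ∪ T) U (fun w hw => ?_) w fun j hj => hG ▸
    hw j (Finset.mem_filter.1 hj).2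
  have hcard : N + M ≤ (U.filter fun j => w j ∈ S).card + (U.filter fun j => w j ∈ T).card := by
    rw [← hUc]
    calc U.card ≤ ((U.filter fun j => w j ∈ S) ∪ (U.filter fun j => w j ∈ T)).card := by
          apply Finset.card_le_card
          intro j hj
          simp only [Finset.mem_union, Finset.mem_filter]
          rcases hw j hj with h | h
          · exact Or.inl ⟨hj, h⟩
          · exact Or.inr ⟨hj, h⟩
      _ ≤ _ := Finset.card_union_le _ _
  rcases le_or_gt N (U.filter fun j => w j ∈ S).card with h | h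
  · obtain ⟨σ, hσ⟩ := exists_front _ h
    exact hF w σ (hS _ fun j hj => (Finset.mem_filter.1 (hσ j hj)).2)
  · obtain ⟨σ, hσ⟩ := exists_front (U.filter fun j => w j ∈ T) (N := M) (by omega)
    exact hF w σ (hT _ fun j hj => (Finset.mem_filter.1 (hσ j hj)).2)

end

variable {k : Type} [Field k] [IsAlgClosed k] [CharZero k] {m : ℕ}
  {X : Set (MvPolynomial (Fin (m + 1)) k)}

/-- alternating sums of products with `N` factors in `S` are zero -/
def EvenP (hX : Hom X) (S : Submodule ℚ (CH X Unit)) : Prop :=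
  ∃ N : ℕ, ∀ n, N ≤ n → ∀ w : Fin n → CH X Unit, (∀ j : Fin n, (j : ℕ) < N → w j ∈ S) →
    Alt (Ext hX n) w = 0

/-- symmetric sums of products with `N` factors in `S` are zero -/
def OddP (hX : Hom X) (S : Submodule ℚ (CH X Unit)) : Prop :=
  ∃ N : ℕ, ∀ n, N ≤ n → ∀ w : Fin n → CH X Unit, (∀ j : Fin n, (j : ℕ) < N → w j ∈ S) →
    Sym (Ext hX n) w = 0

theorem EvenP.sup {hX : Hom X} {S T : Submodule ℚ (CH X Unit)} (hS : EvenP hX S)
    (hT : EvenP hX T) : EvenP hX (S ⊔ T) := by
  obtain ⟨N, hN⟩ := hS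
  obtain ⟨M, hM⟩ := hT
  refine ⟨N + M, fun n hn w hw => sup_gen (fun w π h => ?_) (hN n (by omega)) (hM n (by omega))
    hn w hw⟩
  rw [Alt_perm] at h
  rcases Int.units_eq_one_or (Equiv.Perm.sign π) with h3 | h3
  · simpa [h3] using h
  · simpa [h3] using h

theorem OddP.sup {hX : Hom X} {S T : Submodule ℚ (CH X Unit)} (hS : OddP hX S)
    (hT : OddP hX T) : OddP hX (S ⊔ T) := by
  obtain ⟨N, hN⟩ := hS
  obtain ⟨M, hM⟩ := hT
  refine ⟨N + M, fun n hn w hw => sup_gen (fun w π h => ?_) (hN n (by omega)) (hM n (by omega))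
    hn w hw⟩
  rwa [Sym_perm] at h

theorem EvenP.mono {hX : Hom X} {S T : Submodule ℚ (CH X Unit)} (hT : EvenP hX T)
    (h : S ≤ T) : EvenP hX S := by
  obtain ⟨N, hN⟩ := hT
  exact ⟨N, fun n hn w hw => hN n hn w fun j hj => h (hw j hj)⟩

theorem OddP.mono {hX : Hom X} {S T : Submodule ℚ (CH X Unit)} (hT : OddP hX T)
    (h : S ≤ T) : OddP hX S := by
  obtain ⟨N, hN⟩ := hT
  exact ⟨N, fun n hn w hw => hN n hn w fun j hj => h (hw j hj)⟩

theorem oddP_bot (hX : Hom X) : OddP hX ⊥ :=
  ⟨1, fun n hn w hw => Sym_zero _ w ⟨0, hn⟩ ((Submodule.mem_bot ℚ).1 (hw ⟨0, hn⟩ Nat.one_pos))⟩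

/-- multiples of one class -/
theorem evenP_single (hX : Hom X) (c : CH X Unit) : EvenP hX (Submodule.span ℚ {c}) := by
  refine ⟨2, fun n hn w hw => ?_⟩
  refine multi_span (Alt (Ext hX n)) (G := {c})
    (Finset.univ.filter fun j : Fin n => (j : ℕ) < 2) (fun w hw => ?_) w
    fun j hj => hw j (Finset.mem_filter.1 hj).2
  have h0 : w ⟨0, by omega⟩ = c := hw _ (Finset.mem_filter.2 ⟨Finset.mem_univ _, by simp⟩)
  have h1 : w ⟨1, by omega⟩ = c := hw _ (Finset.mem_filter.2 ⟨Finset.mem_univ _, by simp⟩)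
  have hne : (⟨0, by omega⟩ : Fin n) ≠ ⟨1, by omega⟩ := by
    intro h
    exact absurd (Fin.mk.inj_iff.1 h) (by omega)
  have h2 := Alt_perm (Ext hX n) w (Equiv.swap ⟨0, by omega⟩ ⟨1, by omega⟩)
  have h3 : (fun j => w (Equiv.swap (⟨0, by omega⟩ : Fin n) ⟨1, by omega⟩ j)) = w := by
    funext j
    rcases eq_or_ne j ⟨0, by omega⟩ with rfl | hj
    · rw [Equiv.swap_apply_left, h0, h1]
    rcases eq_or_ne j ⟨1, by omega⟩ with rfl | hj'
    · rw [Equiv.swap_apply_right, h0, h1]
    · rw [Equiv.swap_apply_of_ne_of_ne hj hj']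
  rw [h3, Equiv.Perm.sign_swap hne, Units.val_neg, Units.val_one, neg_one_smul] at h2
  have h4 : (2 : ℚ) • Alt (Ext hX n) w = 0 := by
    rw [two_smul]
    exact add_eq_zero_iff_eq_neg.2 h2
  exact (smul_eq_zero.1 h4).resolve_left two_ne_zero

omit [IsAlgClosed k] [CharZero k] in
theorem rsys (hX : Hom X) : CUB.RSys (fun N => Rat X (Fin N)) ⊥ where
  update := by
    intro w hw N j c
    rw [Submodule.mem_bot] at hw
    rw [hw, Finsupp.mapDomain_zero]
    exact Submodule.zero_mem _
  perm := by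
    intro N z hz σ
    have h1 : Rat X (Fin N) ≤ (Rat X (Fin N)).comap (Finsupp.lmapDomain ℚ ℚ
        fun (x : Fin N → Pt X k) j => x (σ j)) := by
      refine Submodule.span_le.2 ?_
      rintro _ ⟨K, i1, i2, i3, x, y, f, D, hf, hD, hval, rfl⟩
      change Finsupp.lmapDomain ℚ ℚ _ _ ∈ Rat X (Fin N)
      rw [map_finsuppSum]
      refine Submodule.subset_span ⟨K, i1, i2, i3, fun j => x (σ j), fun v j => y v (σ j), f, D,
        hf, hD, fun v i => hval v (σ i), ?_⟩
      exact Finsupp.sum_congr fun v _ => by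
        rw [Finsupp.lmapDomain_apply, Finsupp.mapDomain_single]
    exact h1 hz
  append := by
    intro N z hz M c
    have h1 : Rat X (Fin N) ≤ (Rat X (Fin (N + M))).comap (Finsupp.lmapDomain ℚ ℚ
        fun (x : Fin N → Pt X k) => Fin.append x c) := by
      refine Submodule.span_le.2 ?_
      rintro _ ⟨K, i1, i2, i3, x, y, f, D, hf, hD, hval, rfl⟩
      change Finsupp.lmapDomain ℚ ℚ _ _ ∈ Rat X (Fin (N + M))
      rw [map_finsuppSum]
      refine Submodule.subset_span ⟨K, i1, i2, i3,
        Fin.append x fun j => (c j).map (Algebra.ofId k K) hX, fun v => Fin.append (y v) c,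
        f, D, hf, hD, fun v i => ?_, ?_⟩
      · change IsVal v (Fin.append x (fun j => (c j).map (Algebra.ofId k K) hX) i)
          (Fin.append (y v) c i)
        induction i using Fin.addCases with
        | left i =>
          rw [Fin.append_left, Fin.append_left]
          exact hval v i
        | right i =>
          rw [Fin.append_right, Fin.append_right]
          exact isVal_const
      · exact Finsupp.sum_congr fun v _ => by
          rw [Finsupp.lmapDomain_apply, Finsupp.mapDomain_single]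
    exact h1 hz

omit [IsAlgClosed k] [CharZero k] in
theorem cl1_surj : Function.Surjective (cl1 X) := by
  intro c
  obtain ⟨w, rfl⟩ := Submodule.Quotient.mk_surjective _ c
  refine ⟨Finsupp.mapDomain (fun x => x ()) w, ?_⟩
  change Submodule.Quotient.mk (Finsupp.mapDomain (fun x _ => x)
    (Finsupp.mapDomain (fun x => x ()) w)) = _
  rw [← Finsupp.mapDomain_comp]
  have h3 : ((fun (x : Pt X k) (_ : Unit) => x) ∘ fun x : Unit → Pt X k => x ()) = id := rfl
  rw [h3, Finsupp.mapDomain_id]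

/-- if the alternating sums of products of `N` elements are zero -/
theorem evenP_all (hX : Hom X) {S : Submodule ℚ (CH X Unit)} {N : ℕ}
    (h : ∀ w : Fin N → CH X Unit, (∀ j, w j ∈ S) → Alt (Ext hX N) w = 0) : EvenP hX S := by
  refine ⟨N, fun n hn w hw => ?_⟩
  choose z hz using fun j => cl1_surj (w j)
  have h1 : CUB.alt z ∈ Rat X (Fin n) := by
    refine CUB.alt_many (rsys hX) (A := S.comap (cl1 X)) (m := N) (fun z hz => ?_) z
      (Finset.univ.filter fun j : Fin n => (j : ℕ) < N) ?_ fun j hj => ?_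
    · rw [← Submodule.Quotient.mk_eq_zero]
      exact (cl_alt hX z).trans (h _ fun j => hz j)
    · rw [Fin.card_filter_val_lt]
      omega
    · rw [Submodule.mem_comap, hz]
      exact hw j (Finset.mem_filter.1 hj).2
  have h2 := (cl_alt hX z).symm.trans ((Submodule.Quotient.mk_eq_zero _).2 h1)
  rw [← h2]
  congr 1
  funext j
  exact (hz j).symm

end Pool.Agent.KSup
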