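import Pool.Agent.KSup.Ten

/-!
# Finiteness of the zero-cycles on products
-/

set_option autoImplicit false

noncomputable section

namespace Pool.Agent.KSup

open Finset Pool.Agent.GT Pool.Agent.ZIso
open scoped Classical

variable {m : ℕ} {P : Fin m → Type}

theorem rep_upd {N n : ℕ} (g : Fin n ↪ Fin N) (i : Fin m) (τ : Equiv.Perm (Fin n))
    (y : Fin N → ∀ a, P a →₀ ℚ) {b : Fin N} {a : Fin m} (h : (b, a) ∉ pos g i) (u : P a →₀ ℚ) :
    rep (V := fun a => P a →₀ ℚ) i (τ.viaFintypeEmbedding g) (upd y b a u) =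
      upd (rep (V := fun a => P a →₀ ℚ) i (τ.viaFintypeEmbedding g) y) b a u := by
  have hfix : ∀ b' : Fin N, (∀ s, g s ≠ b') → τ.viaFintypeEmbedding g b' = b' := fun b' hb' =>
    Equiv.Perm.viaFintypeEmbedding_apply_notMem_range τ g (by
      rintro ⟨s, hs⟩
      exact hb' s hs)
  funext b' a'
  by_cases ha' : a' = i
  · subst ha'
    have h1 : rep (V := fun a => P a →₀ ℚ) a' (τ.viaFintypeEmbedding g) (upd y b a u) b' a' =
        upd y b a u (τ.viaFintypeEmbedding g b') a' := by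
      unfold rep
      rw [Function.update_self]
    rw [h1]
    by_cases hba : (b', a') = (b, a)
    · obtain ⟨rfl, rfl⟩ := Prod.mk.inj hba
      have h2 : τ.viaFintypeEmbedding g b' = b' := hfix b' fun s hs => h (mem_pos.2 ⟨rfl, s, hs⟩)
      rw [h2, upd_same, upd_same]
    · rw [upd_ne _ _ hba]
      have h3 : (τ.viaFintypeEmbedding g b', a') ≠ (b, a) := by
        intro h4
        obtain ⟨h5, rfl⟩ := Prod.mk.inj h4
        have h6 : ∀ s, g s ≠ b := fun s hs => h (mem_pos.2 ⟨rfl, s, hs⟩)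
        have h7 := hfix b h6
        have h8 : b' = b := (τ.viaFintypeEmbedding g).injective (h5.trans h7.symm)
        exact hba (by rw [h8])
      rw [upd_ne _ _ h3]
      unfold rep
      rw [Function.update_self]
  · have h1 : rep (V := fun a => P a →₀ ℚ) i (τ.viaFintypeEmbedding g) (upd y b a u) b' a' =
        upd y b a u b' a' := by
      unfold rep
      rw [Function.update_of_ne ha']
    rw [h1]
    by_cases hba : (b', a') = (b, a)
    · obtain ⟨rfl, rfl⟩ := Prod.mk.inj hba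
      rw [upd_same, upd_same]
    · rw [upd_ne _ _ hba, upd_ne _ _ hba]
      unfold rep
      rw [Function.update_of_ne ha']

/-- sums over the permutations of some letters of the kind `i` -/
theorem letters {N n : ℕ} {R : Submodule ℚ ((Fin N → ∀ a, P a) →₀ ℚ)} {i : Fin m}
    {R1 : Submodule ℚ ((Fin n → P i) →₀ ℚ)} (g : Fin n ↪ Fin N)
    (hins : ∀ (x : Fin N → ∀ a, P a) (z : (Fin n → P i) →₀ ℚ), z ∈ R1 →
      Finsupp.lmapDomain ℚ ℚ (ins g i x) z ∈ R)
    (ε : Equiv.Perm (Fin n) → ℚ) (y : Fin N → ∀ a, P a →₀ ℚ)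
    (h : ∑ τ, ε τ • ext (fun s => y (g (τ s)) i) ∈ R1) :
    ∑ τ, ε τ • tens (rep (V := fun a => P a →₀ ℚ) i (τ.viaFintypeEmbedding g) y) ∈ R := by
  by_cases hne : Nonempty (Fin N → ∀ a, P a)
  swap
  · rw [not_nonempty_iff] at hne
    have : (∑ τ, ε τ • tens (rep (V := fun a => P a →₀ ℚ) i (τ.viaFintypeEmbedding g) y)) = 0 :=
      Subsingleton.elim _ _
    rw [this]
    exact Submodule.zero_mem _
  obtain ⟨x₀⟩ := hne
  rw [← Submodule.Quotient.mk_eq_zero, ← Submodule.mkQ_apply]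
  have hlin : Lin (P := P) (pos g i)ᶜ fun y => R.mkQ (∑ τ, ε τ • tens (rep (V := fun a => P a →₀ ℚ)
      i (τ.viaFintypeEmbedding g) y)) := by
    refine Lin.comp (Lin.sum _ fun τ _ => Lin.smul (fun y b a hba => ?_) (ε τ)) _
    obtain ⟨L, hL⟩ := lin_tens (P := P) Finset.univ (rep (V := fun a => P a →₀ ℚ) i
      (τ.viaFintypeEmbedding g) y) b a (Finset.mem_univ _)
    refine ⟨L, fun u => ?_⟩
    rw [← hL, rep_upd g i τ y (Finset.mem_compl.1 hba)]
  refine vanish _ hlin y fun y' h1 h2 => ?_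
  have h3 : ∀ b a, ∃ p, (b, a) ∉ pos g i → y' b a = Finsupp.single p 1 := by
    intro b a
    by_cases hba : (b, a) ∈ pos g i
    · exact ⟨x₀ b a, fun h => absurd hba h⟩
    · obtain ⟨p, hp⟩ := h2 b a (Finset.mem_compl.2 hba)
      exact ⟨p, fun _ => hp⟩
  choose x hx using h3
  have himg : ∀ (τ : Equiv.Perm (Fin n)) s, τ.viaFintypeEmbedding g (g s) = g (τ s) := fun τ s =>
    Equiv.Perm.viaFintypeEmbedding_apply_image τ g s
  have hfix : ∀ (τ : Equiv.Perm (Fin n)) (b' : Fin N), (∀ s, g s ≠ b') →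
      τ.viaFintypeEmbedding g b' = b' := fun τ b' hb' =>
    Equiv.Perm.viaFintypeEmbedding_apply_notMem_range τ g (by
      rintro ⟨s, hs⟩
      exact hb' s hs)
  have h4 : ∀ τ : Equiv.Perm (Fin n), tens (rep (V := fun a => P a →₀ ℚ) i
      (τ.viaFintypeEmbedding g) y') =
      Finsupp.lmapDomain ℚ ℚ (ins g i x) (ext fun s => y (g (τ s)) i) := by
    intro τ
    rw [tens_ins g i x]
    · congr 2
      funext s
      unfold rep
      rw [Function.update_self, himg]
      exact h1 _ _ (by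
        rw [Finset.mem_compl, not_not]
        exact mem_pos.2 ⟨rfl, _, rfl⟩)
    · intro b a hba
      unfold rep
      by_cases ha : a = i
      · subst ha
        have hb : ∀ s, g s ≠ b := fun s hs => hba (mem_pos.2 ⟨rfl, s, hs⟩)
        rw [Function.update_self, hfix τ b hb, hx b a hba]
      · rw [Function.update_of_ne ha, hx b a hba]
  rw [Finset.sum_congr rfl fun τ _ => by rw [h4 τ], Submodule.mkQ_apply,
    Submodule.Quotient.mk_eq_zero]
  have h5 := hins x _ h
  rw [map_sum] at h5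
  have h6 : ∀ τ : Equiv.Perm (Fin n), Finsupp.lmapDomain ℚ ℚ (ins g i x)
      (ε τ • ext fun s => y (g (τ s)) i) =
      ε τ • Finsupp.lmapDomain ℚ ℚ (ins g i x) (ext fun s => y (g (τ s)) i) := fun τ =>
    map_smul _ _ _
  rw [Finset.sum_congr rfl fun τ _ => h6 τ] at h5
  exact h5

/-- Finiteness for the zero-cycles on one factor: they are sums of cycles in `A` and `B`, the
alternating sums of `n + 1` cycles in `A` and the symmetric sums of `n + 1` cycles in `B` are zero. -/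
structure Fac {Q : Type} (R1 : ∀ n, Submodule ℚ ((Fin n → Q) →₀ ℚ)) (n : ℕ)
    (A B : Submodule ℚ (Q →₀ ℚ)) : Prop where
  top : A ⊔ B = ⊤
  alt : ∀ z : Fin (n + 1) → (Q →₀ ℚ), (∀ j, z j ∈ A) →
    ∑ τ : Equiv.Perm (Fin (n + 1)), ((Equiv.Perm.sign τ : ℤ) : ℚ) • ext (fun j => z (τ j)) ∈
      R1 (n + 1)
  sym : ∀ z : Fin (n + 1) → (Q →₀ ℚ), (∀ j, z j ∈ B) →
    ∑ τ : Equiv.Perm (Fin (n + 1)), ext (fun j => z (τ j)) ∈ R1 (n + 1)

theorem Fac.eps {Q : Type} {R1 : ∀ n, Submodule ℚ ((Fin n → Q) →₀ ℚ)} {n : ℕ}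
    {A B : Submodule ℚ (Q →₀ ℚ)} (h : Fac R1 n A B) (p : Fin m → Bool) (a : Fin m)
    (z : Fin (n + 1) → (Q →₀ ℚ)) (hz : ∀ j, z j ∈ if p a then B else A) :
    ∑ τ : Equiv.Perm (Fin (n + 1)), eps p a τ • ext (fun j => z (τ j)) ∈ R1 (n + 1) := by
  unfold KSup.eps
  by_cases hp : p a
  · simp only [hp, if_true, one_smul] at hz ⊢
    exact h.sym z hz
  · simp only [hp] at hz ⊢
    exact h.alt z hz

theorem via_apply {n N : ℕ} (g : Fin n ↪ Fin N) (τ : Equiv.Perm (Fin n)) (s : Fin n) :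
    τ.viaFintypeEmbedding g (g s) = g (τ s) :=
  Equiv.Perm.viaFintypeEmbedding_apply_image τ g s

theorem via_fix {n N : ℕ} (g : Fin n ↪ Fin N) (τ : Equiv.Perm (Fin n)) {b : Fin N}
    (hb : ∀ s, g s ≠ b) : τ.viaFintypeEmbedding g b = b :=
  Equiv.Perm.viaFintypeEmbedding_apply_notMem_range τ g (by
    rintro ⟨s, hs⟩
    exact hb s hs)

theorem via_trans {n M N : ℕ} (g : Fin n ↪ Fin M) (g' : Fin M ↪ Fin N) (τ : Equiv.Perm (Fin n))
    (s : Fin M) : τ.viaFintypeEmbedding (g.trans g') (g' s) = g' (τ.viaFintypeEmbedding g s) := by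
  by_cases hs : ∃ s', g s' = s
  · obtain ⟨s', rfl⟩ := hs
    rw [via_apply]
    exact via_apply (g.trans g') τ s'
  · push Not at hs
    rw [via_fix g τ hs]
    exact via_fix (g.trans g') τ fun s' h => hs s' (g'.injective h)

theorem sum_fixing {T : Type} [AddCommGroup T] [Module ℚ T] {n N : ℕ} (g : Fin n ↪ Fin N)
    (f : Equiv.Perm (Fin N) → T) :
    ∑ ρ ∈ fixing (Finset.univ.map g), f ρ = ∑ τ : Equiv.Perm (Fin n),
      f (τ.viaFintypeEmbedding g) := by
  obtain ⟨E, hE1, hE2, -, hE4⟩ := CUB.FLN.fixing_emb (T := T) g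
  rw [hE4]
  refine Finset.sum_congr rfl fun τ _ => ?_
  congr 1
  ext b
  by_cases hb : ∃ s, g s = b
  · obtain ⟨s, rfl⟩ := hb
    rw [hE1, via_apply]
  · push Not at hb
    rw [hE2 τ b hb, via_fix g τ hb]

section Product

variable {R1 : ∀ (a : Fin m) (n : ℕ), Submodule ℚ ((Fin n → P a) →₀ ℚ)} {n : Fin m → ℕ}
  {A B : ∀ a, Submodule ℚ (P a →₀ ℚ)}

/-- permutations of some blocks of the same type -/
theorem blocks {M N : ℕ} (g : Fin M ↪ Fin N) {R : Submodule ℚ ((Fin N → ∀ a, P a) →₀ ℚ)}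
    (hins : ∀ (i : Fin m) (l : ℕ) (g : Fin l ↪ Fin N) (x : Fin N → ∀ a, P a)
      (z : (Fin l → P i) →₀ ℚ), z ∈ R1 i l → Finsupp.lmapDomain ℚ ℚ (ins g i x) z ∈ R)
    (hF : ∀ a, Fac (R1 a) (n a) (A a) (B a)) (p : Fin m → Bool) (hM : (∑ a, n a) ^ m < M)
    (y : Fin N → ∀ a, P a →₀ ℚ) (hy : ∀ s a, y (g s) a ∈ if p a then B a else A a) :
    ∑ τ : Equiv.Perm (Fin M), epsB p τ • tens (fun b => y (τ.viaFintypeEmbedding g b)) ∈ R := by
  let V : Fin m → Type := fun a => {z : P a →₀ ℚ // z ∈ if p a then B a else A a}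
  let full : (Fin M → ∀ a, V a) → Fin N → ∀ a, P a →₀ ℚ := fun t =>
    Function.extend g (fun s a => (t s a).1) y
  have hfull : ∀ t s, full t (g s) = fun a => (t s a).1 := fun t s =>
    g.injective.extend_apply _ _ s
  have hfull' : ∀ t b, (∀ s, g s ≠ b) → full t b = y b := fun t b hb =>
    Function.extend_apply' _ _ _ (by
      rintro ⟨s, hs⟩
      exact hb s hs)
  have h1 := super_blocks (T := ((Fin N → ∀ a, P a) →₀ ℚ) ⧸ R) (V := V) p n
    (fun t => R.mkQ (tens (full t))) (fun a J hJ t => ?_) hM fun s a => ⟨y (g s) a, hy s a⟩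
  · rw [← Submodule.Quotient.mk_eq_zero, ← Submodule.mkQ_apply, map_sum, ← h1]
    refine Finset.sum_congr rfl fun τ _ => ?_
    rw [map_smul]
    congr 3
    funext b
    by_cases hb : ∃ s, g s = b
    · obtain ⟨s, rfl⟩ := hb
      rw [hfull, via_apply]
    · push Not at hb
      rw [hfull' _ _ hb, via_fix g τ hb]
  · let E₀ := (J.equivFinOfCardEq hJ).symm
    let g₁ : Fin (n a + 1) ↪ Fin M :=
      ⟨fun s => (E₀ s : Fin M), fun s s' h => E₀.injective (Subtype.ext h)⟩
    have hgJ : J = Finset.univ.map g₁ := by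
      ext j
      rw [Finset.mem_map]
      constructor
      · intro hj
        exact ⟨E₀.symm ⟨j, hj⟩, Finset.mem_univ _, by simp [g₁]⟩
      · rintro ⟨s, -, rfl⟩
        exact (E₀ s).2
    rw [hgJ, sum_fixing]
    have h2 := letters (R := R) (R1 := R1 a (n a + 1)) (i := a) (g₁.trans g)
      (fun x z hz => hins a _ (g₁.trans g) x z hz) (eps p a) (full t) (by
        have h3 : ∀ τ : Equiv.Perm (Fin (n a + 1)),
            (fun s => full t ((g₁.trans g) (τ s)) a) = fun s => (t (g₁ (τ s)) a).1 := by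
          intro τ
          funext s
          exact congrFun (hfull t (g₁ (τ s))) a
        rw [Finset.sum_congr rfl fun τ _ => by rw [h3 τ]]
        exact (hF a).eps p a (fun s => (t (g₁ s) a).1) fun s => (t (g₁ s) a).2)
    rw [← Submodule.Quotient.mk_eq_zero, ← Submodule.mkQ_apply, map_sum] at h2
    rw [← h2]
    refine Finset.sum_congr rfl fun τ _ => ?_
    rw [map_smul]
    have h4 : eps p a (τ.viaFintypeEmbedding g₁) = eps p a τ := by
      unfold KSup.eps
      rw [Equiv.Perm.viaFintypeEmbedding_sign]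
    rw [h4]
    congr 3
    funext b
    by_cases hb : ∃ s, g s = b
    · obtain ⟨s, rfl⟩ := hb
      rw [hfull]
      funext a'
      unfold rep
      by_cases ha : a' = a
      · subst ha
        rw [Function.update_self, Function.update_self, via_trans, hfull]
      · rw [Function.update_of_ne ha, Function.update_of_ne ha, hfull]
    · push Not at hb
      rw [hfull' _ _ hb]
      unfold rep
      rw [via_fix (g₁.trans g) τ fun s h => hb _ h, Function.update_eq_self, hfull' _ _ hb]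

end Product

end Pool.Agent.KSup
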