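import Pool.Agent.KSup.Words
import Pool.Agent.GT.ExtA

/-!
# Products of zero-cycles on the factors of a product
-/

set_option autoImplicit false

noncomputable section

namespace Pool.Agent.KSup

open Finset Pool.Agent.GT
open scoped Classical

variable {m : ℕ} {P : Fin m → Type}

/-- the product of zero-cycles on the factors -/
def prodc (y : ∀ a, P a →₀ ℚ) : (∀ a, P a) →₀ ℚ :=
  ∑ x ∈ Fintype.piFinset fun a => (y a).support, Finsupp.single x (∏ a, y a (x a))

theorem prodc_apply (y : ∀ a, P a →₀ ℚ) (x : ∀ a, P a) : prodc y x = ∏ a, y a (x a) := by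
  unfold prodc
  rw [Finsupp.finsetSum_apply]
  simp only [Finsupp.single_apply]
  rw [Finset.sum_ite_eq' (Fintype.piFinset fun j => (y j).support) x (fun x => ∏ j, y j (x j))]
  split_ifs with h
  · rfl
  · rw [Fintype.mem_piFinset] at h
    push Not at h
    obtain ⟨j, hj⟩ := h
    have h0 : y j (x j) = 0 := Finsupp.notMem_support_iff.1 hj
    exact (Finset.prod_eq_zero (Finset.mem_univ j) h0).symm

theorem prodc_update (y : ∀ a, P a →₀ ℚ) (i : Fin m) (u : P i →₀ ℚ) (x : ∀ a, P a) :
    prodc (Function.update y i u) x = u (x i) * ∏ a ∈ Finset.univ.erase i, y a (x a) := by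
  rw [prodc_apply, ← Finset.mul_prod_erase Finset.univ _ (Finset.mem_univ i)]
  congr 1
  · simp
  · refine Finset.prod_congr rfl fun j hj => ?_
    rw [Function.update_of_ne (Finset.ne_of_mem_erase hj)]

theorem prodc_linear (P : Fin m → Type) : ∃ F : MultilinearMap ℚ (fun a => P a →₀ ℚ)
    ((∀ a, P a) →₀ ℚ), ∀ y, F y = prodc y := by
  refine ⟨MultilinearMap.mk' prodc ?_ ?_, fun z => rfl⟩
  · intro z i a b
    refine Finsupp.ext fun x => ?_
    rw [Finsupp.add_apply, prodc_update, prodc_update, prodc_update, Finsupp.add_apply, add_mul]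
  · intro z i c a
    refine Finsupp.ext fun x => ?_
    rw [Finsupp.smul_apply, prodc_update, prodc_update, Finsupp.smul_apply, smul_eq_mul,
      smul_eq_mul, mul_assoc]

theorem prodc_single (x : ∀ a, P a) :
    prodc (fun a => Finsupp.single (x a) (1 : ℚ)) = Finsupp.single x 1 := by
  refine Finsupp.ext fun y => ?_
  rw [prodc_apply]
  by_cases h : x = y
  · subst h
    simp
  · rw [Finsupp.single_eq_of_ne (Ne.symm h)]
    obtain ⟨j, hj⟩ := Function.ne_iff.1 h
    exact Finset.prod_eq_zero (Finset.mem_univ j) (Finsupp.single_eq_of_ne (Ne.symm hj))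

/-- the product of the zero-cycles in all blocks -/
def tens {N : ℕ} (y : Fin N → ∀ a, P a →₀ ℚ) : (Fin N → ∀ a, P a) →₀ ℚ :=
  ext fun b => prodc (y b)

/-- the letter `a` of the block `b` is replaced by `u` -/
def upd {N : ℕ} (y : Fin N → ∀ a, P a →₀ ℚ) (b : Fin N) (a : Fin m) (u : P a →₀ ℚ) :
    Fin N → ∀ a, P a →₀ ℚ :=
  Function.update y b (Function.update (y b) a u)

theorem upd_self {N : ℕ} (y : Fin N → ∀ a, P a →₀ ℚ) (b : Fin N) (a : Fin m) :
    upd y b a (y b a) = y := by
  unfold upd
  rw [Function.update_eq_self, Function.update_eq_self]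

theorem upd_same {N : ℕ} (y : Fin N → ∀ a, P a →₀ ℚ) (b : Fin N) (a : Fin m) (u : P a →₀ ℚ) :
    upd y b a u b a = u := by
  unfold upd
  rw [Function.update_self, Function.update_self]

theorem upd_ne {N : ℕ} (y : Fin N → ∀ a, P a →₀ ℚ) {b b' : Fin N} {a a' : Fin m} (u : P a →₀ ℚ)
    (h : (b', a') ≠ (b, a)) : upd y b a u b' a' = y b' a' := by
  unfold upd
  by_cases hb : b' = b
  · subst hb
    rw [Function.update_self]
    refine Function.update_of_ne (fun ha => h ?_) _ _
    rw [ha]
  · rw [Function.update_of_ne hb]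

variable {T : Type} [AddCommGroup T] [Module ℚ T]

/-- `Q` is linear in the letters in `S` -/
def Lin {N : ℕ} (S : Finset (Fin N × Fin m)) (Q : (Fin N → ∀ a, P a →₀ ℚ) → T) : Prop :=
  ∀ y b a, (b, a) ∈ S → ∃ L : (P a →₀ ℚ) →ₗ[ℚ] T, ∀ u, Q (upd y b a u) = L u

theorem Lin.comp {N : ℕ} {S : Finset (Fin N × Fin m)} {Q : (Fin N → ∀ a, P a →₀ ℚ) → T}
    (h : Lin S Q) {T' : Type} [AddCommGroup T'] [Module ℚ T'] (f : T →ₗ[ℚ] T') :
    Lin S fun y => f (Q y) := by
  intro y b a hba
  obtain ⟨L, hL⟩ := h y b a hba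
  exact ⟨f.comp L, fun u => by
    beta_reduce
    rw [hL]
    rfl⟩

theorem Lin.sum {N : ℕ} {S : Finset (Fin N × Fin m)} {I : Type} (s : Finset I)
    {Q : I → (Fin N → ∀ a, P a →₀ ℚ) → T} (h : ∀ i ∈ s, Lin S (Q i)) :
    Lin S fun y => ∑ i ∈ s, Q i y := by
  intro y b a hba
  choose! L hL using fun (i : I) (hi : i ∈ s) => h i hi y b a hba
  exact ⟨∑ i ∈ s, L i, fun u => by
    rw [LinearMap.sum_apply]
    exact Finset.sum_congr rfl fun i hi => hL i hi u⟩

theorem Lin.smul {N : ℕ} {S : Finset (Fin N × Fin m)} {Q : (Fin N → ∀ a, P a →₀ ℚ) → T}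
    (h : Lin S Q) (c : ℚ) : Lin S fun y => c • Q y := by
  intro y b a hba
  obtain ⟨L, hL⟩ := h y b a hba
  exact ⟨c • L, fun u => by
    beta_reduce
    rw [hL]
    rfl⟩

theorem Lin.sub {N : ℕ} {S : Finset (Fin N × Fin m)} {Q Q' : (Fin N → ∀ a, P a →₀ ℚ) → T}
    (h : Lin S Q) (h' : Lin S Q') : Lin S fun y => Q y - Q' y := by
  intro y b a hba
  obtain ⟨L, hL⟩ := h y b a hba
  obtain ⟨L', hL'⟩ := h' y b a hba
  exact ⟨L - L', fun u => by
    beta_reduce
    rw [hL, hL']
    rfl⟩

theorem lin_tens {N : ℕ} (S : Finset (Fin N × Fin m)) : Lin S (tens (P := P) (N := N)) := by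
  intro y b a _
  obtain ⟨F, hF⟩ := ext_linear (∀ a, P a) N
  obtain ⟨D, hD⟩ := prodc_linear P
  refine ⟨(F.toLinearMap (fun b => prodc (y b)) b).comp (D.toLinearMap (y b) a), fun u => ?_⟩
  rw [LinearMap.comp_apply, MultilinearMap.toLinearMap_apply, MultilinearMap.toLinearMap_apply,
    hF, hD]
  unfold tens upd
  congr 1
  funext b'
  by_cases hb : b' = b
  · subst hb
    rw [Function.update_self, Function.update_self]
  · rw [Function.update_of_ne hb, Function.update_of_ne hb]

/-- A function which is linear in the letters in `S` and zero if all these letters are points, is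
zero. -/
theorem vanish {N : ℕ} {Q : (Fin N → ∀ a, P a →₀ ℚ) → T} (S : Finset (Fin N × Fin m)) :
    ∀ (_ : Lin S Q) (y₀ : Fin N → ∀ a, P a →₀ ℚ),
      (∀ y : Fin N → ∀ a, P a →₀ ℚ, (∀ b a, (b, a) ∉ S → y b a = y₀ b a) →
        (∀ b a, (b, a) ∈ S → ∃ x, y b a = Finsupp.single x 1) → Q y = 0) →
      Q y₀ = 0 := by
  induction S using Finset.induction_on with
  | empty =>
    intro _ y₀ h
    exact h y₀ (fun _ _ _ => rfl) fun b a hba => absurd hba (by simp)
  | insert s S hs ih =>
    intro hQ y₀ h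
    obtain ⟨b, a⟩ := s
    obtain ⟨L, hL⟩ := hQ y₀ b a (Finset.mem_insert_self _ _)
    have h1 : ∀ u, L u = 0 := by
      intro u
      induction u using Finsupp.induction_linear with
      | zero => exact map_zero L
      | add u v hu hv => rw [map_add, hu, hv, add_zero]
      | single x c =>
        have h2 : L (Finsupp.single x 1) = 0 := by
          rw [← hL]
          refine ih (fun y b' a' h' => hQ y b' a' (Finset.mem_insert_of_mem h')) _
            fun y hy1 hy2 => h y (fun b' a' h' => ?_) fun b' a' h' => ?_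
          · rw [Finset.mem_insert, not_or] at h'
            rw [hy1 b' a' h'.2, upd_ne _ _ h'.1]
          · rcases Finset.mem_insert.1 h' with h' | h'
            · obtain ⟨rfl, rfl⟩ := Prod.mk.inj h'
              exact ⟨x, by rw [hy1 _ _ hs, upd_same]⟩
            · exact hy2 b' a' h'
        have h3 : Finsupp.single x c = c • Finsupp.single x (1 : ℚ) := by
          rw [Finsupp.smul_single, smul_eq_mul, mul_one]
        rw [h3, map_smul, h2, smul_zero]
    rw [← upd_self y₀ b a, hL, h1]

/-- the points with the index `i` in the blocks `g s` are replaced by `t s` -/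
def ins {N n : ℕ} (g : Fin n ↪ Fin N) (i : Fin m) (x : Fin N → ∀ a, P a) (t : Fin n → P i) :
    Fin N → ∀ a, P a :=
  fun b => Function.update (x b) i (Function.extend g t (fun b => x b i) b)

/-- the places of the letters `i` in the blocks `g s` -/
def pos {N n : ℕ} (g : Fin n ↪ Fin N) (i : Fin m) : Finset (Fin N × Fin m) :=
  Finset.univ.image fun s => (g s, i)

theorem mem_pos {N n : ℕ} {g : Fin n ↪ Fin N} {i : Fin m} {b : Fin N} {a : Fin m} :
    (b, a) ∈ pos g i ↔ a = i ∧ ∃ s, g s = b := by
  unfold pos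
  rw [Finset.mem_image]
  constructor
  · rintro ⟨s, -, h⟩
    obtain ⟨rfl, rfl⟩ := Prod.mk.inj h
    exact ⟨rfl, s, rfl⟩
  · rintro ⟨rfl, s, rfl⟩
    exact ⟨s, Finset.mem_univ _, rfl⟩

theorem tens_single {N : ℕ} (x : Fin N → ∀ a, P a) :
    tens (fun b a => Finsupp.single (x b a) (1 : ℚ)) = Finsupp.single x 1 := by
  unfold tens
  have h : (fun b => prodc fun a => Finsupp.single (x b a) (1 : ℚ)) =
      fun b => Finsupp.single (x b) 1 := funext fun b => prodc_single (x b)
  rw [h, ext_single x fun _ => (1 : ℚ), Finset.prod_const_one]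

theorem lin_ext {N n : ℕ} (g : Fin n ↪ Fin N) (i : Fin m) :
    Lin (P := P) (pos g i) fun y => ext fun s => y (g s) i := by
  intro y b a hba
  obtain ⟨ha, s, hs⟩ := mem_pos.1 hba
  subst ha
  subst hs
  obtain ⟨F, hF⟩ := ext_linear (P a) n
  refine ⟨F.toLinearMap (fun s => y (g s) a) s, fun u => ?_⟩
  rw [MultilinearMap.toLinearMap_apply, hF]
  beta_reduce
  congr 1
  funext s'
  by_cases hs : s' = s
  · subst hs
    rw [upd_same, Function.update_self]
  · rw [Function.update_of_ne hs, upd_ne]
    intro h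
    exact hs (g.injective (congrArg Prod.fst h))

/-- the product, if all letters but the letters `i` in the blocks `g s` are points -/
theorem tens_ins {N n : ℕ} (g : Fin n ↪ Fin N) (i : Fin m) (x : Fin N → ∀ a, P a)
    (y : Fin N → ∀ a, P a →₀ ℚ)
    (hy : ∀ b a, (b, a) ∉ pos g i → y b a = Finsupp.single (x b a) 1) :
    tens y = Finsupp.lmapDomain ℚ ℚ (ins g i x) (ext fun s => y (g s) i) := by
  rw [← sub_eq_zero]
  refine vanish (Q := fun y => tens y - Finsupp.lmapDomain ℚ ℚ (ins g i x)
    (ext fun s => y (g s) i)) (pos g i)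
    ((lin_tens _).sub ((lin_ext g i).comp (Finsupp.lmapDomain ℚ ℚ (ins g i x)))) y
    fun y' h1 h2 => ?_
  have h3 : ∀ b a, ∃ p, y' b a = Finsupp.single p 1 := by
    intro b a
    by_cases h : (b, a) ∈ pos g i
    · exact h2 b a h
    · exact ⟨x b a, by rw [h1 b a h, hy b a h]⟩
  choose x' hx' using h3
  have h4 : y' = fun b a => Finsupp.single (x' b a) 1 := by
    funext b a
    exact hx' b a
  have h5 : (fun s => y' (g s) i) = fun s => Finsupp.single (x' (g s) i) 1 := by
    funext s
    exact hx' _ _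
  have h6 : x' = ins g i x fun s => x' (g s) i := by
    funext b a
    unfold ins
    by_cases ha : a = i
    · subst ha
      rw [Function.update_self]
      by_cases hb : ∃ s, g s = b
      · obtain ⟨s, rfl⟩ := hb
        rw [g.injective.extend_apply]
      · rw [Function.extend_apply' _ _ _ hb]
        have h7 : (b, a) ∉ pos g a := fun h => hb (mem_pos.1 h).2
        have h8 := (hx' b a).symm.trans ((h1 b a h7).trans (hy b a h7))
        exact Finsupp.single_left_injective one_ne_zero h8
    · rw [Function.update_of_ne ha]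
      have h7 : (b, a) ∉ pos g i := fun h => ha (mem_pos.1 h).1
      have h8 := (hx' b a).symm.trans ((h1 b a h7).trans (hy b a h7))
      exact Finsupp.single_left_injective one_ne_zero h8
  rw [h4, tens_single]
  have h9 : (ext fun s => (fun b a => Finsupp.single (x' b a) (1 : ℚ)) (g s) i) =
      Finsupp.single (fun s => x' (g s) i) 1 := by
    have := ext_single (fun s => x' (g s) i) fun _ => (1 : ℚ)
    rw [Finset.prod_const_one] at this
    exact this
  rw [h9, Finsupp.lmapDomain_apply, Finsupp.mapDomain_single, ← h6, sub_self]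

end Pool.Agent.KSup
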