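import Pool.Agent.KMix.Abs
import Pool.Agent.FLN.Cos

/-!
# Alternating sums of blocks with even and odd letters

`c` is a function on the families `y b a`, `b < N`, `a < m` (`N` blocks of `m` letters, the letter with
the number `a` is of the kind `a`). The kinds are even or odd. Suppose that the sums of `c` over the
permutations of any `n a + 1` letters of the kind `a` are zero, the alternating sums if `a` is even,
the sums without signs if `a` is odd. Then the sum of `c` over all permutations of `N` blocks is zero,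
for `N > (∑ a, n a) ^ m`: the alternating sum if the number of the odd kinds is even, the sum without
signs if it is odd.
-/

set_option autoImplicit false

namespace Pool.Agent.KSup

open Finset Pool.Agent.ZIso Pool.Agent.KMix
open scoped Classical

variable {m N : ℕ}

/-- the sign of the permutation of letters of the kind `a` -/
def eps (p : Fin m → Bool) {n : ℕ} (a : Fin m) (π : Equiv.Perm (Fin n)) : ℚ :=
  if p a then 1 else ((Equiv.Perm.sign π : ℤ) : ℚ)

/-- the sign of the permutation of `n` blocks -/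
def epsB (p : Fin m → Bool) {n : ℕ} (π : Equiv.Perm (Fin n)) : ℚ :=
  ((Equiv.Perm.sign π : ℤ) : ℚ) * ∏ a : Fin m, if p a then ((Equiv.Perm.sign π : ℤ) : ℚ) else 1

/-- the letters of the kind `a` are permuted -/
def rep {V : Fin m → Type} (a : Fin m) (π : Equiv.Perm (Fin N)) (y : Fin N → ∀ a, V a) :
    Fin N → ∀ a, V a :=
  fun b => Function.update (y b) a (y (π b) a)

section word

variable {V : Fin m → Type} {T : Type} [AddCommGroup T] [Module ℚ T] {r : ℕ}

/-- the word consists of the labels of all letters, of the right kinds, in the order `π` -/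
private def Good (e : Fin N × Fin m ≃ Fin r) (w : Fin r → Fin N × Fin m)
    (π : Fin m → Equiv.Perm (Fin N)) : Prop := ∀ b a, w (e (b, a)) = (π a b, a)

private theorem good_unique {e : Fin N × Fin m ≃ Fin r} {w : Fin r → Fin N × Fin m}
    {π π' : Fin m → Equiv.Perm (Fin N)} (h : Good e w π) (h' : Good e w π') : π = π' := by
  funext a
  ext b
  have h1 := (h b a).symm.trans (h' b a)
  exact congrArg (fun x : Fin N × Fin m => (x.1 : ℕ)) h1

/-- the product of the signs of the permutations of the letters of odd kinds -/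
private def oddSgn (p : Fin m → Bool) (π : Fin m → Equiv.Perm (Fin N)) : ℚ :=
  ∏ a, if p a then ((Equiv.Perm.sign (π a) : ℤ) : ℚ) else 1

/-- the value of a word -/
private noncomputable def cw (p : Fin m → Bool) (c : (Fin N → ∀ a, V a) → T) (y : Fin N → ∀ a, V a)
    (e : Fin N × Fin m ≃ Fin r) (w : Fin r → Fin N × Fin m) : T :=
  if h : ∃ π, Good e w π then oddSgn p h.choose • c (fun b a => y (h.choose a b) a) else 0

private theorem cw_pos {p : Fin m → Bool} {c : (Fin N → ∀ a, V a) → T} {y : Fin N → ∀ a, V a}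
    {e : Fin N × Fin m ≃ Fin r} {w : Fin r → Fin N × Fin m} {π : Fin m → Equiv.Perm (Fin N)}
    (h : Good e w π) : cw p c y e w = oddSgn p π • c (fun b a => y (π a b) a) := by
  have h1 : ∃ π, Good e w π := ⟨π, h⟩
  unfold cw
  rw [dif_pos h1, good_unique h1.choose_spec h]

private theorem good_perm {e : Fin N × Fin m ≃ Fin r} {w : Fin r → Fin N × Fin m}
    {π : Fin m → Equiv.Perm (Fin N)} (h : Good e w π) {i : Fin m} {ρ : Equiv.Perm (Fin N)}
    {σ : Equiv.Perm (Fin r)} (hσ : ∀ b, σ (e (b, i)) = e (ρ b, i))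
    (hσ' : ∀ b a, a ≠ i → σ (e (b, a)) = e (b, a)) :
    Good e (w ∘ σ) (Function.update π i (π i * ρ)) := by
  intro b a
  rw [Function.comp_apply]
  by_cases ha : a = i
  · subst ha
    rw [hσ, h, Function.update_self]
    rfl
  · rw [hσ' b a ha, h, Function.update_of_ne ha]

private theorem oddSgn_update {p : Fin m → Bool} {π : Fin m → Equiv.Perm (Fin N)} {i : Fin m}
    {ρ : Equiv.Perm (Fin N)} : oddSgn p (Function.update π i (π i * ρ)) =
      oddSgn p π * (if p i then ((Equiv.Perm.sign ρ : ℤ) : ℚ) else 1) := by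
  unfold oddSgn
  rw [← Finset.mul_prod_erase _ _ (mem_univ i), ← Finset.mul_prod_erase univ
    (fun a => if p a then ((Equiv.Perm.sign (π a) : ℤ) : ℚ) else 1) (mem_univ i),
    Function.update_self]
  have h1 : ∏ x ∈ univ.erase i, (if p x then
      ((Equiv.Perm.sign (Function.update π i (π i * ρ) x) : ℤ) : ℚ) else 1) =
      ∏ x ∈ univ.erase i, if p x then ((Equiv.Perm.sign (π x) : ℤ) : ℚ) else 1 := by
    refine Finset.prod_congr rfl fun x hx => ?_
    rw [Function.update_of_ne (Finset.ne_of_mem_erase hx)]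
  rw [h1]
  by_cases hp : p i
  · simp only [hp, if_true, Equiv.Perm.sign_mul]
    push_cast
    ring
  · simp only [hp]
    simp

private theorem word_alt (p : Fin m → Bool) (n : Fin m → ℕ) (c : (Fin N → ∀ a, V a) → T)
    (H : ∀ (a : Fin m) (J : Finset (Fin N)), J.card = n a + 1 → ∀ y : Fin N → ∀ a, V a,
      ∑ π ∈ fixing J, eps p a π • c (rep a π y) = 0)
    (y : Fin N → ∀ a, V a) (e : Fin N × Fin m ≃ Fin r) {i : Fin m} {J : Finset (Fin r)}
    (hJ : J.card = n i + 1) {w : Fin r → Fin N × Fin m} (hw : ∀ j ∈ J, (w j).2 = i) :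
    ∑ σ ∈ fixing J, ((Equiv.Perm.sign σ : ℤ) : ℚ) • cw p c y e (w ∘ σ) = 0 := by
  by_cases hgood : ∃ σ ∈ fixing J, ∃ π, Good e (w ∘ σ) π
  swap
  · push Not at hgood
    refine Finset.sum_eq_zero fun σ hσ => ?_
    have h1 : ¬ ∃ π, Good e (w ∘ σ) π := by
      rintro ⟨π, hπ⟩
      exact hgood σ hσ π hπ
    unfold cw
    rw [dif_neg h1, smul_zero]
  obtain ⟨σ₀, hσ₀, π₀, hπ₀⟩ := hgood
  have hfix : ∀ {π : Equiv.Perm (Fin r)}, π ∈ fixing J ↔ ∀ i ∉ J, π i = i := by
    intro π
    simp [fixing]
  rw [hfix] at hσ₀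
  -- the positions `J` are of the kind `i`
  have hJmem : ∀ j ∈ J, σ₀ j ∈ J := by
    intro j hj
    by_contra hcon
    have h1 := hσ₀ _ hcon
    have h2 : σ₀ j = j := σ₀.injective h1
    rw [h2] at hcon
    exact hcon hj
  have hkind : ∀ j ∈ J, (e.symm j).2 = i := by
    intro j hj
    have h1 := hπ₀ (e.symm j).1 (e.symm j).2
    rw [Prod.mk.eta, e.apply_symm_apply, Function.comp_apply] at h1
    rw [← hw _ (hJmem j hj), h1]
  let E₀ := (J.equivFinOfCardEq hJ).symm
  let g : Fin (n i + 1) ↪ Fin r :=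
    ⟨fun s => (E₀ s : Fin r), fun s s' h => E₀.injective (Subtype.ext h)⟩
  have hgJ : J = Finset.univ.map g := by
    ext j
    rw [Finset.mem_map]
    constructor
    · intro hj
      exact ⟨E₀.symm ⟨j, hj⟩, Finset.mem_univ _, by simp [g]⟩
    · rintro ⟨s, -, rfl⟩
      exact (E₀ s).2
  have hgk : ∀ s, g s = e ((e.symm (g s)).1, i) := by
    intro s
    have h1 : e ((e.symm (g s)).1, (e.symm (g s)).2) = g s := by
      rw [Prod.mk.eta, e.apply_symm_apply]
    rw [hkind (g s) (E₀ s).2] at h1
    exact h1.symm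
  let g' : Fin (n i + 1) ↪ Fin N := ⟨fun s => (e.symm (g s)).1, fun s s' h => g.injective (by
    rw [hgk s, hgk s', show (e.symm (g s)).1 = (e.symm (g s')).1 from h])⟩
  have hgg' : ∀ s, g s = e (g' s, i) := hgk
  obtain ⟨E, hE1, hE2, hE3, hE4⟩ := CUB.FLN.fixing_emb (T := T) g
  obtain ⟨E', hE'1, hE'2, hE'3, hE'4⟩ := CUB.FLN.fixing_emb (T := T) g'
  -- `σ` from `ρ`
  have hEa : ∀ τ b, E τ (e (b, i)) = e (E' τ b, i) := by
    intro τ b
    by_cases hb : ∃ s, g' s = b
    · obtain ⟨s, rfl⟩ := hb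
      rw [← hgg', hE1, hE'1, hgg']
    · push Not at hb
      rw [hE'2 τ b hb, hE2]
      intro s hs
      rw [hgg'] at hs
      have := e.injective hs
      exact hb s (congrArg Prod.fst this)
  have hEb : ∀ τ b a, a ≠ i → E τ (e (b, a)) = e (b, a) := by
    intro τ b a ha
    refine hE2 τ _ fun s hs => ?_
    rw [hgg'] at hs
    exact ha (congrArg Prod.snd (e.injective hs)).symm
  -- `w` is good
  have hw0 : ∃ τ₀, σ₀ = E τ₀ := by
    have h1 : ∀ s, ∃ s', σ₀ (g s) = g s' := by
      intro s
      have h2 : σ₀ (g s) ∈ J := hJmem _ (E₀ s).2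
      have h3 : σ₀ (g s) ∈ Finset.univ.map g := by
        rw [← hgJ]
        exact h2
      rw [Finset.mem_map] at h3
      obtain ⟨s', -, hs'⟩ := h3
      exact ⟨s', hs'.symm⟩
    choose t ht using h1
    have htinj : Function.Injective t := by
      intro s s' h
      apply g.injective
      apply σ₀.injective
      rw [ht, ht, h]
    refine ⟨Equiv.ofBijective t (Finite.injective_iff_bijective.1 htinj), ?_⟩
    ext j
    by_cases hj : ∃ s, g s = j
    · obtain ⟨s, rfl⟩ := hj
      rw [ht, hE1]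
      rfl
    · push Not at hj
      rw [hE2 _ j hj, hσ₀ j]
      rw [hgJ, Finset.mem_map]
      rintro ⟨s, -, hs⟩
      exact hj s hs
  obtain ⟨τ₀, rfl⟩ := hw0
  have hwgood : ∃ π, Good e w π := by
    refine ⟨Function.update π₀ i (π₀ i * (E' τ₀)⁻¹), ?_⟩
    have h1 := good_perm (σ := (E τ₀)⁻¹) (ρ := (E' τ₀)⁻¹) hπ₀ (i := i) (fun b => by
      rw [Equiv.Perm.inv_eq_iff_eq, hEa]
      simp) fun b a ha => by
      rw [Equiv.Perm.inv_eq_iff_eq, hEb _ _ _ ha]
    have h2 : ((w ∘ ⇑(E τ₀)) ∘ ⇑(E τ₀)⁻¹) = w := by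
      funext j
      simp
    rwa [h2] at h1
  obtain ⟨π, hπ⟩ := hwgood
  rw [hgJ, hE4]
  have h1 := H i (Finset.univ.map g') (by rw [Finset.card_map, Finset.card_univ, Fintype.card_fin])
    fun b a => y (π a b) a
  rw [hE'4] at h1
  have h2 : ∀ τ, ((Equiv.Perm.sign (E τ) : ℤ) : ℚ) • cw p c y e (w ∘ ⇑(E τ)) =
      oddSgn p π • (eps p i (E' τ) • c (rep i (E' τ) fun b a => y (π a b) a)) := by
    intro τ
    rw [cw_pos (good_perm hπ (fun b => hEa τ b) fun b a ha => hEb τ b a ha), oddSgn_update,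
      smul_smul, smul_smul, hE3]
    have h3 : (fun b a => y ((Function.update π i (π i * E' τ)) a b) a) =
        rep i (E' τ) fun b a => y (π a b) a := by
      funext b a
      unfold rep
      by_cases ha : a = i
      · subst ha
        rw [Function.update_self, Function.update_self]
        rfl
      · rw [Function.update_of_ne ha, Function.update_of_ne ha]
    rw [h3, hE'3]
    congr 1
    unfold eps
    rw [hE'3]
    by_cases hp : p i
    · simp only [hp, if_true]
      have h4 : ((Equiv.Perm.sign τ : ℤ) : ℚ) * ((Equiv.Perm.sign τ : ℤ) : ℚ) = 1 := by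
        rw [← Int.cast_mul, ← Units.val_mul, Int.units_mul_self]
        simp
      rw [mul_left_comm, h4]
    · simp only [hp]
      simp [mul_comm]
  rw [Finset.sum_congr rfl fun τ _ => h2 τ, ← Finset.smul_sum, h1, smul_zero]

/-- **Blocks with even and odd letters.** -/
theorem super_blocks (p : Fin m → Bool) (n : Fin m → ℕ) (c : (Fin N → ∀ a, V a) → T)
    (H : ∀ (a : Fin m) (J : Finset (Fin N)), J.card = n a + 1 → ∀ y : Fin N → ∀ a, V a,
      ∑ π ∈ fixing J, eps p a π • c (rep a π y) = 0)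
    (hN : (∑ a, n a) ^ m < N) (y : Fin N → ∀ a, V a) :
    ∑ τ : Equiv.Perm (Fin N), epsB p τ • c (fun b => y (τ b)) = 0 := by
  have h1 := alt_blocks (U := Fin N × Fin m) (T := T) (fun x => x.2) n hN finProdFinEquiv
    (cw p c y finProdFinEquiv)
    (fun i J hJ w hw => word_alt p n c H y finProdFinEquiv hJ hw) (fun b a => (b, a))
  rw [← h1]
  refine Finset.sum_congr rfl fun τ _ => ?_
  have h2 : Good (N := N) (m := m) finProdFinEquiv
      (fun i => (τ (finProdFinEquiv.symm i).1, (finProdFinEquiv.symm i).2)) fun _ => τ := by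
    intro b a
    beta_reduce
    rw [Equiv.symm_apply_apply]
  rw [cw_pos h2, smul_smul]
  rfl

end word

end Pool.Agent.KSup
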